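import Pool.Agent.H116R2.EM_T9D

set_option autoImplicit false

/-! Task T9 of the project EM: mean square of the head of the dual sum. -/

namespace Pool.Agent.H116R2.EM

open Finset Filter Topology MeasureTheory Complex
open Pool.Agent.H306R2 Pool.Agent.H306R2.SM Pool.Agent.H223.EM

noncomputable section

/-- Minkowski's inequality in the form needed here -/
theorem minkowski {ι : Type*} (S : Finset ι) (kp : ℝ → ℂ) (hk : Integrable kp) (F : ι → ℝ → ℂ)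
    (hF : ∀ s ∈ S, Integrable (fun t => kp t * F s t)) (B : ℝ)
    (hB : ∀ t, ∑ s ∈ S, ‖F s t‖ ^ 2 ≤ B) :
    ∑ s ∈ S, ‖∫ t, kp t * F s t‖ ^ 2 ≤ B * (∫ t, ‖kp t‖) ^ 2 := by
  set v : ι → ℂ := fun s => ∫ t, kp t * F s t with hv
  set V : ℝ := ∑ s ∈ S, ‖v s‖ ^ 2 with hV
  have hV0 : 0 ≤ V := Finset.sum_nonneg fun s _ => by positivity
  have hB0 : 0 ≤ B := le_trans (Finset.sum_nonneg fun s _ => by positivity) (hB 0)
  have h1 : (V : ℂ) = ∫ t, kp t * ∑ s ∈ S, (starRingEnd ℂ) (v s) * F s t := by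
    have e1 : (fun t => kp t * ∑ s ∈ S, (starRingEnd ℂ) (v s) * F s t) =
        fun t => ∑ s ∈ S, (starRingEnd ℂ) (v s) * (kp t * F s t) := by
      funext t
      rw [Finset.mul_sum]
      exact Finset.sum_congr rfl fun s _ => by ring
    rw [e1, integral_finset_sum _ (fun s hs => (hF s hs).const_mul _), hV]
    push_cast
    refine Finset.sum_congr rfl fun s _ => ?_
    rw [integral_const_mul]
    have := Complex.conj_mul' (v s)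
    rw [← this]
  have h2 : V ≤ ∫ t, ‖kp t‖ * (Real.sqrt V * Real.sqrt B) := by
    have h3 : V = ‖(V : ℂ)‖ := by rw [Complex.norm_real, Real.norm_of_nonneg hV0]
    refine h3.le.trans ?_
    rw [h1]
    refine norm_integral_le_of_norm_le (hk.norm.mul_const _) (Eventually.of_forall fun t => ?_)
    rw [norm_mul]
    refine mul_le_mul_of_nonneg_left ?_ (norm_nonneg _)
    have h4 : ‖∑ s ∈ S, (starRingEnd ℂ) (v s) * F s t‖ ≤ ∑ s ∈ S, ‖v s‖ * ‖F s t‖ := by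
      refine (norm_sum_le _ _).trans (le_of_eq (Finset.sum_congr rfl fun s _ => ?_))
      rw [norm_mul, RCLike.norm_conj]
    refine h4.trans ?_
    have h5 := Finset.sum_mul_sq_le_sq_mul_sq S (fun s => ‖v s‖) (fun s => ‖F s t‖)
    have h6 : (∑ s ∈ S, ‖v s‖ * ‖F s t‖) ^ 2 ≤ V * B :=
      h5.trans (mul_le_mul_of_nonneg_left (hB t) hV0)
    have h7 := Real.abs_le_sqrt h6
    rw [Real.sqrt_mul hV0] at h7
    exact (le_abs_self _).trans h7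
  rw [integral_mul_const] at h2
  set K : ℝ := ∫ t, ‖kp t‖ with hK
  have hK0 : 0 ≤ K := integral_nonneg fun t => norm_nonneg _
  by_cases hz : V = 0
  · rw [hz]; positivity
  · have hVp : 0 < V := lt_of_le_of_ne hV0 (Ne.symm hz)
    have hs : 0 < Real.sqrt V := Real.sqrt_pos.2 hVp
    have h8 : Real.sqrt V ≤ K * Real.sqrt B := by
      have h9 : Real.sqrt V * Real.sqrt V ≤ Real.sqrt V * (K * Real.sqrt B) := by
        rw [Real.mul_self_sqrt hV0]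
        calc V ≤ K * (Real.sqrt V * Real.sqrt B) := h2
          _ = _ := by ring
      exact le_of_mul_le_mul_left h9 hs
    calc V = Real.sqrt V ^ 2 := (Real.sq_sqrt hV0).symm
      _ ≤ (K * Real.sqrt B) ^ 2 := pow_le_pow_left₀ hs.le h8 2
      _ = B * K ^ 2 := by rw [mul_pow, Real.sq_sqrt hB0]; ring

theorem kap_cpow_int (i : Fin 2) (k : ℕ)
    (hk : Integrable (fun t : ℝ => kap i k (((1 / 2 : ℝ) : ℂ) + t * I))) (x : ℝ) (hx : 0 < x) :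
    Integrable (fun t : ℝ => kap i k (((1 / 2 : ℝ) : ℂ) + t * I) *
      (x : ℂ) ^ (((1 / 2 : ℝ) : ℂ) + t * I)) := by
  have hx0 : (x : ℂ) ≠ 0 := by exact_mod_cast hx.ne'
  have hc : Continuous (fun t : ℝ => (x : ℂ) ^ (((1 / 2 : ℝ) : ℂ) + t * I)) := by
    refine Continuous.const_cpow (by fun_prop) (Or.inl hx0)
  refine hk.mul_bdd (c := x ^ (1 / 2 : ℝ)) hc.aestronglyMeasurable (Eventually.of_forall fun t => ?_)
  rw [Complex.norm_cpow_eq_rpow_re_of_pos hx]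
  simp

theorem x_pos (Y : ℝ) (hY : 0 < Y) (h l n j : ℕ) (hh : 1 ≤ h) (hl : 1 ≤ l) (hn : 1 ≤ n) (hj : 1 ≤ j) :
    0 < 4 * Real.pi ^ 2 * Y * j / ((mp h l n : ℝ) * hp h n) := by
  have hpi := Real.pi_pos
  have hg : 1 ≤ Nat.gcd h n := Nat.gcd_pos_of_pos_left n hh
  have h1 : 1 ≤ hp h n := Nat.div_pos (Nat.gcd_le_left n hh) hg
  have h2 : 1 ≤ mp h l n := Nat.mul_pos hl (Nat.div_pos (Nat.gcd_le_right h hn) hg)
  have h1' : (0 : ℝ) < hp h n := by exact_mod_cast h1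
  have h2' : (0 : ℝ) < mp h l n := by exact_mod_cast h2
  have hj' : (0 : ℝ) < j := by exact_mod_cast hj
  positivity

theorem Hd_eq (i : Fin 2) (k : ℕ)
    (hk : Integrable (fun t : ℝ => kap i k (((1 / 2 : ℝ) : ℂ) + t * I)))
    (Y : ℝ) (hY : 0 < Y) (N J : ℕ) (a : ℕ → ℝ) (h l : ℕ) (hh : 1 ≤ h) (hl : 1 ≤ l) :
    Integrable (fun t : ℝ => kap i k (((1 / 2 : ℝ) : ℂ) + t * I) * Ft i k Y N J a h l t) ∧
    Hd i k Y N J a h l = ∫ t : ℝ, kap i k (((1 / 2 : ℝ) : ℂ) + t * I) * Ft i k Y N J a h l t := by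
  set c1 : ℕ → ℂ := fun n => ((a n / Real.sqrt n : ℝ) : ℂ) *
    ((Real.sqrt ((mp h l n : ℝ) * hp h n) / (2 * Real.pi ^ 2 * (k.factorial : ℝ) * Y) : ℝ) : ℂ) with hc1
  set c2 : ℕ → ℕ → ℂ := fun n j => ((d2 j / j : ℝ) : ℂ) * ech i (hp h n) (mp h l n) j with hc2
  set c3 : ℂ := ((1 / (2 * Real.pi) : ℝ) : ℂ) with hc3
  set x : ℕ → ℕ → ℝ := fun n j => 4 * Real.pi ^ 2 * Y * j / ((mp h l n : ℝ) * hp h n) with hx
  have e1 : (fun t : ℝ => kap i k (((1 / 2 : ℝ) : ℂ) + t * I) * Ft i k Y N J a h l t) =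
      fun t : ℝ => ∑ n ∈ Icc 1 N, ∑ j ∈ Icc 1 J, (c1 n * (c2 n j * c3)) *
        (kap i k (((1 / 2 : ℝ) : ℂ) + t * I) * (x n j : ℂ) ^ (((1 / 2 : ℝ) : ℂ) + t * I)) := by
    funext t
    unfold Ft
    rw [Finset.mul_sum]
    refine Finset.sum_congr rfl fun n _ => ?_
    rw [Finset.mul_sum, Finset.mul_sum]
    refine Finset.sum_congr rfl fun j _ => ?_
    simp only [hc1, hc2, hc3, hx]
    ring
  have hI : ∀ n ∈ Icc 1 N, ∀ j ∈ Icc 1 J, Integrable (fun t : ℝ => (c1 n * (c2 n j * c3)) *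
        (kap i k (((1 / 2 : ℝ) : ℂ) + t * I) * (x n j : ℂ) ^ (((1 / 2 : ℝ) : ℂ) + t * I))) := by
    intro n hn j hj
    rw [Finset.mem_Icc] at hn hj
    exact (kap_cpow_int i k hk (x n j) (x_pos Y hY h l n j hh hl hn.1 hj.1)).const_mul _
  constructor
  · rw [e1]
    exact integrable_finset_sum _ fun n hn => integrable_finset_sum _ fun j hj => hI n hn j hj
  · rw [e1, integral_finset_sum _ (fun n hn => integrable_finset_sum _ fun j hj => hI n hn j hj)]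
    unfold Hd
    refine Finset.sum_congr rfl fun n hn => ?_
    rw [integral_finset_sum _ (fun j hj => hI n hn j hj), Finset.mul_sum]
    refine Finset.sum_congr rfl fun j hj => ?_
    rw [integral_const_mul]
    unfold Dt Kc
    simp only [hc1, hc2, hc3, hx]
    ring

/-- T9. mean square of the head of the dual sum (from T7c and T8) -/
theorem head_ms
    (kap_int : ∃ C : ℝ, ∃ A : ℕ, 0 < C ∧ ∀ (i : Fin 2) (k : ℕ), 1 ≤ k →
      Integrable (fun t : ℝ => kap i k (((1 / 2 : ℝ) : ℂ) + t * I)) ∧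
      ∫ t : ℝ, ‖kap i k (((1 / 2 : ℝ) : ℂ) + t * I)‖ ≤ C * (k : ℝ) ^ A * (k.factorial : ℝ))
    (BIL : ∀ (ε : ℝ), 0 < ε → ∃ C : ℝ, 0 < C ∧ ∀ (Q N J : ℕ), 1 ≤ Q → 1 ≤ N → 1 ≤ J →
      ∀ α β : ℕ → ℂ, (∀ n, 1 ≤ n → ‖α n‖ ≤ 1 / Real.sqrt n) → (∀ j, 1 ≤ j → ‖β j‖ ≤ 1 / Real.sqrt j) →
      ∑ q ∈ Icc 1 Q, ∑ x ∈ (range q).filter (fun x => Nat.Coprime x q),
        ‖∑ n ∈ (Icc 1 N).filter (fun n => Nat.Coprime n q), ∑ j ∈ Icc 1 J,
          α n * β j * ee q ((x : ℤ) * j * iv q n)‖ ^ 2 ≤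
        C * ((Q : ℝ) * N * J) ^ ε * ((Q : ℝ) ^ 2 + N * J))
    (ε : ℝ) (hε : 0 < ε) : ∃ C : ℝ, ∃ A : ℕ, 0 < C ∧ ∀ (i : Fin 2) (k : ℕ), 1 ≤ k →
    ∀ Y : ℝ, 1 ≤ Y → ∀ N J H L : ℕ, 1 ≤ N → 1 ≤ J → 1 ≤ H → 1 ≤ L →
    ∀ a : ℕ → ℝ, (∀ n, |a n| ≤ d2 n) →
    ∑ h ∈ Ico H (2 * H), ∑ l ∈ (Ico L (2 * L)).filter (fun l => Nat.Coprime h l),
      ‖Hd i k Y N J a h l‖ ^ 2 ≤
      C * (k : ℝ) ^ A * ((H : ℝ) * L * N * J) ^ ε / Y * (1 + (L : ℝ) / H) * ((H : ℝ) ^ 2 + N * J) := by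
  obtain ⟨C0, A0, hC0, hkap⟩ := kap_int
  obtain ⟨C2, hC2, hB⟩ := BIL (ε / 4) (by positivity)
  obtain ⟨C1, hC1, hdiv⟩ := Pool.Agent.Helper112.divisor_bound (ε / 4) (by positivity)
  set M : ℝ := C1 ^ 5 * C2 * 4 * (1 + 1 / (ε / 4)) * ((2 : ℝ) ^ (ε / 4)) ^ 2 with hM
  have hM0 : 0 < M := by positivity
  have hpi := Real.pi_pos
  refine ⟨C0 ^ 2 * M / (2 * Real.pi ^ 2) ^ 2, 2 * A0, by positivity, ?_⟩
  intro i k hk Y hY N J H L hN hJ hH hL a ha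
  have hY0 : 0 < Y := by linarith
  obtain ⟨hint, hKle⟩ := hkap i k hk
  set K : ℝ := ∫ t : ℝ, ‖kap i k (((1 / 2 : ℝ) : ℂ) + t * I)‖ with hK
  have hK0 : 0 ≤ K := integral_nonneg fun t => norm_nonneg _
  have hk0 : (0 : ℝ) < k := by exact_mod_cast hk
  have hf0 : (0 : ℝ) < (k.factorial : ℝ) := by exact_mod_cast k.factorial_pos
  have hH0 : (0 : ℝ) < H := by exact_mod_cast hH
  have hL0 : (0 : ℝ) < L := by exact_mod_cast hL
  have hN0 : (0 : ℝ) < N := by exact_mod_cast hN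
  have hJ0 : (0 : ℝ) < J := by exact_mod_cast hJ
  set S : Finset (Σ _ : ℕ, ℕ) := (Ico H (2 * H)).sigma
    (fun h => (Ico L (2 * L)).filter (fun l => Nat.Coprime h l)) with hS
  have hmem : ∀ s ∈ S, 1 ≤ s.1 ∧ 1 ≤ s.2 := by
    intro s hs
    rw [hS, Finset.mem_sigma, Finset.mem_Ico, Finset.mem_filter, Finset.mem_Ico] at hs
    exact ⟨by omega, by omega⟩
  set B : ℝ := KK k Y ^ 2 * M * ((H : ℝ) * L * N * J) ^ ε * (1 + (L : ℝ) / H) *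
    ((H : ℝ) ^ 2 + N * J) with hBdef
  have hBt : ∀ t : ℝ, ∑ s ∈ S, ‖Ft i k Y N J a s.1 s.2 t‖ ^ 2 ≤ B := by
    intro t
    rw [hS, Finset.sum_sigma]
    have := sum_Ft_le i k Y hY0 N J a H L t hN hJ hH hL (ε / 4) C1 C2 (by positivity) hC1 hC2
      hdiv hB ha
    rw [show 4 * (ε / 4) = ε by ring] at this
    exact this
  have hmain := minkowski S (fun t : ℝ => kap i k (((1 / 2 : ℝ) : ℂ) + t * I)) hint
    (fun s t => Ft i k Y N J a s.1 s.2 t)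
    (fun s hs => (Hd_eq i k hint Y hY0 N J a s.1 s.2 (hmem s hs).1 (hmem s hs).2).1) B hBt
  have e1 : ∑ h ∈ Ico H (2 * H), ∑ l ∈ (Ico L (2 * L)).filter (fun l => Nat.Coprime h l),
      ‖Hd i k Y N J a h l‖ ^ 2 = ∑ s ∈ S, ‖Hd i k Y N J a s.1 s.2‖ ^ 2 := by
    rw [hS, Finset.sum_sigma]
  have e2 : ∑ s ∈ S, ‖Hd i k Y N J a s.1 s.2‖ ^ 2 =
      ∑ s ∈ S, ‖∫ t : ℝ, kap i k (((1 / 2 : ℝ) : ℂ) + t * I) * Ft i k Y N J a s.1 s.2 t‖ ^ 2 := by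
    refine Finset.sum_congr rfl fun s hs => ?_
    rw [← (Hd_eq i k hint Y hY0 N J a s.1 s.2 (hmem s hs).1 (hmem s hs).2).2]
  rw [e1, e2]
  refine hmain.trans ?_
  have hB0 : 0 ≤ B := by
    rw [hBdef]
    positivity
  have h3 : K ^ 2 ≤ (C0 * (k : ℝ) ^ A0 * (k.factorial : ℝ)) ^ 2 := pow_le_pow_left₀ hK0 hKle 2
  refine (mul_le_mul_of_nonneg_left h3 hB0).trans (le_of_eq ?_)
  have hsY : Real.sqrt Y ^ 2 = Y := Real.sq_sqrt hY0.le
  have hsY0 : 0 < Real.sqrt Y := Real.sqrt_pos.2 hY0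
  have e4 : KK k Y ^ 2 = 1 / ((2 * Real.pi ^ 2) ^ 2 * (k.factorial : ℝ) ^ 2 * Y) := by
    unfold KK
    rw [div_pow, one_pow, mul_pow, mul_pow, hsY]
  rw [hBdef, e4]
  have e5 : (k : ℝ) ^ (2 * A0) = ((k : ℝ) ^ A0) ^ 2 := by rw [mul_comm, pow_mul]
  rw [e5]
  generalize ((H : ℝ) * L * N * J) ^ ε = R
  generalize (1 + (L : ℝ) / H) = R2
  generalize ((H : ℝ) ^ 2 + N * J) = R3
  generalize (k : ℝ) ^ A0 = R4
  field_simp

end

end Pool.Agent.H116R2.EM
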