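import Pool.Agent.H223.EM.Defs

set_option autoImplicit false

/-! Task T9 of the project EM, part A: additive characters and counting. -/

namespace Pool.Agent.H116R2.EM

open Finset Filter Topology MeasureTheory Complex
open Pool.Agent.H306R2 Pool.Agent.H306R2.SM Pool.Agent.H223.EM

noncomputable section

theorem ee_congr (q : ℕ) (hq : 1 ≤ q) (a b : ℤ) (h : (a : ZMod q) = b) : ee q a = ee q b := by
  rw [ZMod.intCast_eq_intCast_iff_dvd_sub] at h
  obtain ⟨c, hc⟩ := h
  have hb : b = a + q * c := by linarith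
  have hq0 : (q : ℂ) ≠ 0 := by
    have : q ≠ 0 := by omega
    exact_mod_cast this
  unfold ee
  rw [hb]
  push_cast
  have : 2 * (Real.pi : ℂ) * I * (((a : ℂ) + q * c) / q) =
      2 * (Real.pi : ℂ) * I * ((a : ℂ) / q) + c * (2 * Real.pi * I) := by
    field_simp
  rw [this, Complex.exp_add, Complex.exp_int_mul_two_pi_mul_I, mul_one]

/-- the residue `∓ l⁻¹` modulo `q` -/
def xr (i : Fin 2) (q l : ℕ) : ℕ := ((if i = 0 then (-1 : ZMod q) else 1) * (l : ZMod q)⁻¹).val

theorem inv_eq_of_mul {q : ℕ} {a : ℕ} {b : ZMod q} (ha : Nat.Coprime a q) (h : (a : ZMod q) * b = 1) :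
    (a : ZMod q)⁻¹ = b := by
  have h1 := ZMod.coe_mul_inv_eq_one a ha
  calc (a : ZMod q)⁻¹ = (a : ZMod q)⁻¹ * ((a : ZMod q) * b) := by rw [h, mul_one]
    _ = ((a : ZMod q) * (a : ZMod q)⁻¹) * b := by ring
    _ = b := by rw [h1, one_mul]

theorem inv_mul_cast (q l n : ℕ) (hl : Nat.Coprime l q) (hn : Nat.Coprime n q) :
    ((l * n : ℕ) : ZMod q)⁻¹ = (l : ZMod q)⁻¹ * (n : ZMod q)⁻¹ := by
  have h1 := ZMod.coe_mul_inv_eq_one l hl
  have h2 := ZMod.coe_mul_inv_eq_one n hn
  apply inv_eq_of_mul (Nat.Coprime.mul_left hl hn)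
  push_cast
  calc (l : ZMod q) * n * ((l : ZMod q)⁻¹ * (n : ZMod q)⁻¹)
      = ((l : ZMod q) * (l : ZMod q)⁻¹) * ((n : ZMod q) * (n : ZMod q)⁻¹) := by ring
    _ = 1 := by rw [h1, h2, mul_one]

theorem ech_eq (i : Fin 2) (q l n j : ℕ) (hq : 1 ≤ q) (hl : Nat.Coprime l q) (hn : Nat.Coprime n q) :
    ech i q (l * n) j = ee q ((xr i q l : ℤ) * j * iv q n) := by
  haveI : NeZero q := ⟨by omega⟩
  unfold ech
  apply ee_congr q hq
  unfold iv xr
  push_cast
  rw [ZMod.natCast_zmod_val, ZMod.natCast_zmod_val, ZMod.natCast_zmod_val]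
  have := inv_mul_cast q l n hl hn
  push_cast at this
  rw [this]
  split_ifs
  · push_cast; ring
  · push_cast; ring

theorem isUnit_xr (i : Fin 2) (q l : ℕ) (hl : Nat.Coprime l q) :
    IsUnit ((if i = 0 then (-1 : ZMod q) else 1) * (l : ZMod q)⁻¹) := by
  have h1 := ZMod.coe_mul_inv_eq_one l hl
  have h2 : IsUnit ((l : ZMod q)⁻¹) := IsUnit.of_mul_eq_one (l : ZMod q) (by rw [mul_comm]; exact h1)
  apply IsUnit.mul _ h2
  split_ifs
  · exact isUnit_one.neg
  · exact isUnit_one

theorem xr_coprime (i : Fin 2) (q l : ℕ) (hl : Nat.Coprime l q) :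
    Nat.Coprime (xr i q l) q := by
  obtain ⟨u, hu⟩ := isUnit_xr i q l hl
  unfold xr
  rw [← hu]
  exact ZMod.val_coe_unit_coprime u

theorem xr_lt (i : Fin 2) (q l : ℕ) (hq : 1 ≤ q) : xr i q l < q := by
  haveI : NeZero q := ⟨by omega⟩
  exact ZMod.val_lt _

theorem xr_inj (i : Fin 2) (q l l' : ℕ) (hq : 1 ≤ q) (hl : Nat.Coprime l q) (hl' : Nat.Coprime l' q)
    (h : xr i q l = xr i q l') : l ≡ l' [MOD q] := by
  haveI : NeZero q := ⟨by omega⟩
  unfold xr at h
  have h1 := ZMod.val_injective q h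
  have h2 : (l : ZMod q)⁻¹ = (l' : ZMod q)⁻¹ := by
    split_ifs at h1
    · simpa using h1
    · simpa using h1
  have e1 := ZMod.coe_mul_inv_eq_one l hl
  have e2 := ZMod.coe_mul_inv_eq_one l' hl'
  rw [← ZMod.natCast_eq_natCast_iff]
  calc (l : ZMod q) = (l : ZMod q) * ((l' : ZMod q) * (l' : ZMod q)⁻¹) := by rw [e2, mul_one]
    _ = ((l : ZMod q) * (l : ZMod q)⁻¹) * (l' : ZMod q) := by rw [h2]; ring
    _ = (l' : ZMod q) := by rw [e1, one_mul]

/-- at most `L/q+1` numbers of an interval of length `L` in a residue class -/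
theorem card_class (q L : ℕ) (hq : 1 ≤ q) (s : Finset ℕ) (hs : s ⊆ Ico L (2 * L))
    (h : ∀ l ∈ s, ∀ l' ∈ s, l ≡ l' [MOD q]) : s.card ≤ L / q + 1 := by
  have : s.card ≤ (range (L / q + 1)).card := by
    apply Finset.card_le_card_of_injOn (fun l => (l - L) / q)
    · intro l hl
      have := Finset.mem_Ico.1 (hs hl)
      rw [Finset.coe_range, Set.mem_Iio]
      have : (l - L) / q ≤ L / q := Nat.div_le_div_right (by omega)
      show (l - L) / q < L / q + 1
      omega
    · intro l hl l' hl' he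
      have a1 := Finset.mem_Ico.1 (hs hl)
      have a2 := Finset.mem_Ico.1 (hs hl')
      have h3 := h l hl l' hl'
      have he' : (l - L) / q = (l' - L) / q := he
      -- the difference is a multiple of `q` smaller than `q`
      have h4 : (l - L) % q = (l' - L) % q := by
        have : (l - L) + L ≡ (l' - L) + L [MOD q] := by
          rw [Nat.sub_add_cancel a1.1, Nat.sub_add_cancel a2.1]; exact h3
        exact Nat.ModEq.add_right_cancel' L this
      have h5 := Nat.div_add_mod (l - L) q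
      have h6 := Nat.div_add_mod (l' - L) q
      rw [he', h4] at h5
      omega
  rwa [Finset.card_range] at this

theorem sum_xr_le (i : Fin 2) (q L : ℕ) (hq : 1 ≤ q) (f : ℕ → ℝ) (hf : ∀ x, 0 ≤ f x) :
    ∑ l ∈ (Ico L (2 * L)).filter (fun l => Nat.Coprime l q), f (xr i q l) ≤
      ((L / q : ℕ) + 1 : ℝ) * ∑ x ∈ (range q).filter (fun x => Nat.Coprime x q), f x := by
  rw [← Finset.sum_fiberwise_of_maps_to
    (s := (Ico L (2 * L)).filter (fun l => Nat.Coprime l q))
    (t := (range q).filter (fun x => Nat.Coprime x q)) (g := fun l => xr i q l)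
    (f := fun l => f (xr i q l))]
  · rw [Finset.mul_sum]
    refine Finset.sum_le_sum fun x _ => ?_
    have h1 : ∑ l ∈ ((Ico L (2 * L)).filter (fun l => Nat.Coprime l q)).filter
        (fun l => xr i q l = x), f (xr i q l) =
        ∑ l ∈ ((Ico L (2 * L)).filter (fun l => Nat.Coprime l q)).filter
        (fun l => xr i q l = x), f x :=
      Finset.sum_congr rfl fun l hl => by rw [(Finset.mem_filter.1 hl).2]
    rw [h1, Finset.sum_const, nsmul_eq_mul]
    refine mul_le_mul_of_nonneg_right ?_ (hf x)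
    have h2 : (((Ico L (2 * L)).filter (fun l => Nat.Coprime l q)).filter
        (fun l => xr i q l = x)).card ≤ L / q + 1 := by
      apply card_class q L hq
      · intro l hl
        exact (Finset.mem_filter.1 (Finset.mem_filter.1 hl).1).1
      · intro l hl l' hl'
        have b1 := Finset.mem_filter.1 hl
        have b2 := Finset.mem_filter.1 hl'
        exact xr_inj i q l l' hq (Finset.mem_filter.1 b1.1).2 (Finset.mem_filter.1 b2.1).2
          (b1.2.trans b2.2.symm)
    exact_mod_cast h2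
  · intro l hl
    rw [Finset.mem_filter, Finset.mem_range]
    exact ⟨xr_lt i q l hq, xr_coprime i q l (Finset.mem_filter.1 hl).2⟩

end

end Pool.Agent.H116R2.EM
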