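import Pool.Agent.H116R2.EM_T9A

set_option autoImplicit false

/-! Task T9 of the project EM, part B: the integrand. -/

namespace Pool.Agent.H116R2.EM

open Finset Filter Topology MeasureTheory Complex
open Pool.Agent.H306R2 Pool.Agent.H306R2.SM Pool.Agent.H223.EM

noncomputable section

/-- `x^(it)` -/
def EE (t x : ℝ) : ℂ := (x : ℂ) ^ ((t : ℂ) * I)

theorem norm_EE (t x : ℝ) (hx : 0 < x) : ‖EE t x‖ = 1 := by
  unfold EE
  rw [Complex.norm_cpow_eq_rpow_re_of_pos hx]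
  simp

theorem EE_ne (t x : ℝ) (hx : 0 < x) : EE t x ≠ 0 := by
  intro h
  have := norm_EE t x hx
  rw [h, norm_zero] at this
  exact zero_ne_one this

theorem EE_mul (t x y : ℝ) (hx : 0 ≤ x) (hy : 0 ≤ y) : EE t (x * y) = EE t x * EE t y := by
  unfold EE
  rw [Complex.ofReal_mul]
  exact Complex.mul_cpow_ofReal_nonneg hx hy _

theorem EE_div (t x y : ℝ) (hx : 0 ≤ x) (hy : 0 < y) : EE t (x / y) = EE t x * (EE t y)⁻¹ := by
  have h1 : EE t ((x / y) * y) = EE t (x / y) * EE t y :=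
    EE_mul t _ _ (div_nonneg hx hy.le) hy.le
  rw [div_mul_cancel₀ _ hy.ne'] at h1
  rw [h1, mul_assoc, mul_inv_cancel₀ (EE_ne t y hy), mul_one]

theorem cpow_half (t x : ℝ) (hx : 0 < x) :
    (x : ℂ) ^ (((1 / 2 : ℝ) : ℂ) + (t : ℂ) * I) = ((Real.sqrt x : ℝ) : ℂ) * EE t x := by
  have hx0 : (x : ℂ) ≠ 0 := by exact_mod_cast hx.ne'
  rw [Complex.cpow_add _ _ hx0]
  unfold EE
  congr 1
  rw [Real.sqrt_eq_rpow, Complex.ofReal_cpow hx.le]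

def al (a : ℕ → ℝ) (t : ℝ) (N g n : ℕ) : ℂ :=
  if n ≤ N / g then ((a (g * n) / Real.sqrt n : ℝ) : ℂ) * (EE t n)⁻¹ else 0

def be (t : ℝ) (J j : ℕ) : ℂ := if j ≤ J then ((d2 j / Real.sqrt j : ℝ) : ℂ) * EE t j else 0

def TT (a : ℕ → ℝ) (t : ℝ) (N J g q x : ℕ) : ℂ :=
  ∑ n ∈ (Icc 1 (N / g)).filter (fun n => Nat.Coprime n q), ∑ j ∈ Icc 1 J,
    al a t N g n * be t J j * ee q ((x : ℤ) * j * iv q n)

/-- the integrand -/
def Ft (i : Fin 2) (k : ℕ) (Y : ℝ) (N J : ℕ) (a : ℕ → ℝ) (h l : ℕ) (t : ℝ) : ℂ :=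
  ∑ n ∈ Icc 1 N, ((a n / Real.sqrt n : ℝ) : ℂ) *
    ((Real.sqrt ((mp h l n : ℝ) * hp h n) / (2 * Real.pi ^ 2 * (k.factorial : ℝ) * Y) : ℝ) : ℂ) *
    ∑ j ∈ Icc 1 J, ((d2 j / j : ℝ) : ℂ) * ech i (hp h n) (mp h l n) j *
      (((1 / (2 * Real.pi) : ℝ) : ℂ) *
        ((4 * Real.pi ^ 2 * Y * j / ((mp h l n : ℝ) * hp h n) : ℝ) : ℂ) ^
          (((1 / 2 : ℝ) : ℂ) + (t : ℂ) * I))

theorem coef_aux (A D sj sY sg sn p K : ℝ) (h1 : 0 < sj) (h2 : 0 < sY) (h3 : 0 < sg) (h4 : 0 < sn)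
    (h5 : 0 < p) (h6 : 0 < K) :
    (A / (sg * sn)) * (D / (sj * sj)) * (2 * p * sY * sj) / ((2 * p ^ 2 * K * (sY * sY)) * (2 * p)) =
      (1 / (2 * p ^ 2 * K * sY)) * (1 / sg) * ((A / sn) * (D / sj)) := by
  field_simp

/-- one term -/
theorem term_eq (i : Fin 2) (k : ℕ) (Y : ℝ) (hY : 0 < Y) (N J : ℕ) (a : ℕ → ℝ) (h l : ℕ) (t : ℝ)
    (g n j : ℕ) (hg : 1 ≤ g) (hh : 1 ≤ h) (hgh : g ∣ h) (hl : 1 ≤ l) (hlh : Nat.Coprime h l)
    (hn : 1 ≤ n) (hnN : n ≤ N / g) (hc : Nat.Coprime n (h / g)) (hj : 1 ≤ j) (hjJ : j ≤ J) :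
    ((a (g * n) / Real.sqrt ((g * n : ℕ) : ℝ) : ℝ) : ℂ) *
    ((Real.sqrt (((l * n : ℕ) : ℝ) * ((h / g : ℕ) : ℝ)) / (2 * Real.pi ^ 2 * (k.factorial : ℝ) * Y) : ℝ) : ℂ) *
    (((d2 j / j : ℝ) : ℂ) * ech i (h / g) (l * n) j *
      (((1 / (2 * Real.pi) : ℝ) : ℂ) *
        ((4 * Real.pi ^ 2 * Y * j / (((l * n : ℕ) : ℝ) * ((h / g : ℕ) : ℝ)) : ℝ) : ℂ) ^
          (((1 / 2 : ℝ) : ℂ) + (t : ℂ) * I))) =
    (((1 / (2 * Real.pi ^ 2 * (k.factorial : ℝ) * Real.sqrt Y) : ℝ) : ℂ) *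
      ((1 / Real.sqrt g : ℝ) : ℂ) * EE t (4 * Real.pi ^ 2 * Y / ((l : ℝ) * ((h / g : ℕ) : ℝ)))) *
      (al a t N g n * be t J j * ee (h / g) ((xr i (h / g) l : ℤ) * j * iv (h / g) n)) := by
  have hq : 1 ≤ h / g := Nat.div_pos (Nat.le_of_dvd hh hgh) hg
  have hlq : Nat.Coprime l (h / g) :=
    (Nat.Coprime.coprime_dvd_left (Nat.div_dvd_of_dvd hgh) hlh).symm
  rw [ech_eq i (h / g) l n j hq hlq hc]
  have hpi := Real.pi_pos
  have hg' : (0 : ℝ) < g := by exact_mod_cast hg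
  have hl' : (0 : ℝ) < l := by exact_mod_cast hl
  have hn' : (0 : ℝ) < n := by exact_mod_cast hn
  have hj' : (0 : ℝ) < j := by exact_mod_cast hj
  have hq' : (0 : ℝ) < ((h / g : ℕ) : ℝ) := by exact_mod_cast hq
  set q : ℝ := ((h / g : ℕ) : ℝ) with hqd
  have hx : 0 < 4 * Real.pi ^ 2 * Y * j / (((l * n : ℕ) : ℝ) * q) := by
    push_cast; positivity
  rw [cpow_half t _ hx]
  have hE : EE t (4 * Real.pi ^ 2 * Y * j / (((l * n : ℕ) : ℝ) * q)) =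
      EE t (4 * Real.pi ^ 2 * Y / ((l : ℝ) * q)) * EE t j * (EE t n)⁻¹ := by
    have : 4 * Real.pi ^ 2 * Y * j / (((l * n : ℕ) : ℝ) * q) =
        (4 * Real.pi ^ 2 * Y / ((l : ℝ) * q) * j) / n := by
      push_cast; field_simp
    rw [this, EE_div t _ _ (by positivity) hn', EE_mul t _ _ (by positivity) hj'.le]
  rw [hE]
  simp only [al, be, hnN, hjJ, if_true]
  -- the real coefficients
  have hs1 : Real.sqrt (((l * n : ℕ) : ℝ) * q) *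
      Real.sqrt (4 * Real.pi ^ 2 * Y * j / (((l * n : ℕ) : ℝ) * q)) =
      2 * Real.pi * Real.sqrt Y * Real.sqrt j := by
    have hln : (0 : ℝ) < ((l * n : ℕ) : ℝ) * q := by push_cast; positivity
    rw [← Real.sqrt_mul hln.le, mul_div_cancel₀ _ hln.ne',
      Real.sqrt_mul (by positivity), Real.sqrt_mul (by positivity)]
    congr 2
    rw [show 4 * Real.pi ^ 2 = (2 * Real.pi) ^ 2 by ring, Real.sqrt_sq (by positivity)]
  have hs2 : Real.sqrt ((g * n : ℕ) : ℝ) = Real.sqrt g * Real.sqrt n := by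
    push_cast
    rw [Real.sqrt_mul hg'.le]
  have hsj : Real.sqrt j * Real.sqrt j = j := Real.mul_self_sqrt hj'.le
  have hsY : Real.sqrt Y * Real.sqrt Y = Y := Real.mul_self_sqrt hY.le
  have hsj0 : 0 < Real.sqrt j := Real.sqrt_pos.2 hj'
  have hsY0 : 0 < Real.sqrt Y := Real.sqrt_pos.2 hY
  have hsg0 : 0 < Real.sqrt g := Real.sqrt_pos.2 hg'
  have hsn0 : 0 < Real.sqrt n := Real.sqrt_pos.2 hn'
  have hk0 : (0 : ℝ) < (k.factorial : ℝ) := by exact_mod_cast k.factorial_pos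
  have key : (a (g * n) / Real.sqrt ((g * n : ℕ) : ℝ)) *
      (Real.sqrt (((l * n : ℕ) : ℝ) * q) / (2 * Real.pi ^ 2 * (k.factorial : ℝ) * Y)) *
      ((d2 j / j) * ((1 / (2 * Real.pi)) *
        Real.sqrt (4 * Real.pi ^ 2 * Y * j / (((l * n : ℕ) : ℝ) * q)))) =
      (1 / (2 * Real.pi ^ 2 * (k.factorial : ℝ) * Real.sqrt Y)) * (1 / Real.sqrt g) *
        ((a (g * n) / Real.sqrt n) * (d2 j / Real.sqrt j)) := by
    have e1 : (a (g * n) / Real.sqrt ((g * n : ℕ) : ℝ)) *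
      (Real.sqrt (((l * n : ℕ) : ℝ) * q) / (2 * Real.pi ^ 2 * (k.factorial : ℝ) * Y)) *
      ((d2 j / j) * ((1 / (2 * Real.pi)) *
        Real.sqrt (4 * Real.pi ^ 2 * Y * j / (((l * n : ℕ) : ℝ) * q)))) =
      (a (g * n) / Real.sqrt ((g * n : ℕ) : ℝ)) * (d2 j / j) *
      (Real.sqrt (((l * n : ℕ) : ℝ) * q) *
        Real.sqrt (4 * Real.pi ^ 2 * Y * j / (((l * n : ℕ) : ℝ) * q))) /
        ((2 * Real.pi ^ 2 * (k.factorial : ℝ) * Y) * (2 * Real.pi)) := by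
      field_simp
    rw [e1, hs1, hs2]
    have hco := coef_aux (a (g * n)) (d2 j) (Real.sqrt j) (Real.sqrt Y) (Real.sqrt g) (Real.sqrt n)
      Real.pi (k.factorial : ℝ) hsj0 hsY0 hsg0 hsn0 hpi hk0
    rw [hsj, hsY] at hco
    exact hco
  have keyC := congrArg (fun r : ℝ => (r : ℂ)) key
  simp only [Complex.ofReal_mul] at keyC
  linear_combination (EE t (4 * Real.pi ^ 2 * Y / ((l : ℝ) * q)) * EE t j * (EE t n)⁻¹ *
    ee (h / g) ((xr i (h / g) l : ℤ) * j * iv (h / g) n)) * keyC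

end

end Pool.Agent.H116R2.EM
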