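import Pool.Agent.H116R2.EM_T9B

set_option autoImplicit false

/-! Task T9 of the project EM, part C: grouping by the gcd. -/

namespace Pool.Agent.H116R2.EM

open Finset Filter Topology MeasureTheory Complex
open Pool.Agent.H306R2 Pool.Agent.H306R2.SM Pool.Agent.H223.EM

noncomputable section

def KK (k : ℕ) (Y : ℝ) : ℝ := 1 / (2 * Real.pi ^ 2 * (k.factorial : ℝ) * Real.sqrt Y)

theorem Ft_eq (i : Fin 2) (k : ℕ) (Y : ℝ) (hY : 0 < Y) (N J : ℕ) (a : ℕ → ℝ) (h l : ℕ) (t : ℝ)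
    (hh : 1 ≤ h) (hl : 1 ≤ l) (hlh : Nat.Coprime h l) :
    Ft i k Y N J a h l t = ∑ g ∈ h.divisors,
      (((KK k Y : ℝ) : ℂ) * ((1 / Real.sqrt g : ℝ) : ℂ) *
        EE t (4 * Real.pi ^ 2 * Y / ((l : ℝ) * ((h / g : ℕ) : ℝ)))) *
        TT a t N J g (h / g) (xr i (h / g) l) := by
  unfold Ft
  rw [← Finset.sum_fiberwise_of_maps_to (s := Icc 1 N) (t := h.divisors) (g := fun n => Nat.gcd h n)]
  · refine Finset.sum_congr rfl fun g hg => ?_
    have hgh : g ∣ h := Nat.dvd_of_mem_divisors hg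
    have hg1 : 1 ≤ g := Nat.pos_of_mem_divisors hg
    unfold TT
    rw [Finset.mul_sum]
    refine Finset.sum_nbij' (fun n => n / g) (fun n => g * n) ?_ ?_ ?_ ?_ ?_
    · intro n hn
      rw [Finset.mem_filter, Finset.mem_Icc] at hn
      obtain ⟨⟨hn1, hnN⟩, hgn⟩ := hn
      have hgn' : g ∣ n := by rw [← hgn]; exact Nat.gcd_dvd_right h n
      rw [Finset.mem_filter, Finset.mem_Icc]
      refine ⟨⟨Nat.div_pos (Nat.le_of_dvd hn1 hgn') hg1, Nat.div_le_div_right hnN⟩, ?_⟩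
      have := Nat.coprime_div_gcd_div_gcd (m := h) (n := n) (by rw [hgn]; exact hg1)
      rw [hgn] at this
      exact this.symm
    · intro n hn
      rw [Finset.mem_filter, Finset.mem_Icc] at hn
      obtain ⟨⟨hn1, hnN⟩, hc⟩ := hn
      rw [Finset.mem_filter, Finset.mem_Icc]
      refine ⟨⟨Nat.mul_pos hg1 hn1, ?_⟩, ?_⟩
      · calc g * n ≤ g * (N / g) := Nat.mul_le_mul_left g hnN
          _ ≤ N := Nat.mul_div_le N g
      · obtain ⟨q, rfl⟩ := hgh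
        rw [Nat.mul_div_cancel_left q hg1] at hc
        rw [Nat.gcd_mul_left, (Nat.coprime_comm.1 hc).gcd_eq_one, mul_one]
    · intro n hn
      rw [Finset.mem_filter] at hn
      have hgn' : g ∣ n := by rw [← hn.2]; exact Nat.gcd_dvd_right h n
      exact Nat.mul_div_cancel' hgn'
    · intro n hn
      exact Nat.mul_div_cancel_left n hg1
    · intro n hn
      rw [Finset.mem_filter, Finset.mem_Icc] at hn
      obtain ⟨⟨hn1, hnN⟩, hgn⟩ := hn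
      have hgn' : g ∣ n := by rw [← hgn]; exact Nat.gcd_dvd_right h n
      obtain ⟨m, rfl⟩ := hgn'
      have hm1 : 1 ≤ m := Nat.pos_of_mul_pos_left hn1
      have hdiv : g * m / g = m := Nat.mul_div_cancel_left m hg1
      have hmN : m ≤ N / g := by
        rw [Nat.le_div_iff_mul_le hg1, mul_comm]; exact hnN
      have hc : Nat.Coprime m (h / g) := by
        have := Nat.coprime_div_gcd_div_gcd (m := h) (n := g * m) (by rw [hgn]; exact hg1)
        rw [hgn, hdiv] at this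
        exact this.symm
      have e1 : hp h (g * m) = h / g := by unfold hp; rw [hgn]
      have e2 : mp h l (g * m) = l * m := by unfold mp; rw [hgn, hdiv]
      simp only [e1, e2, hdiv]
      rw [Finset.mul_sum, Finset.mul_sum]
      refine Finset.sum_congr rfl fun j hj => ?_
      rw [Finset.mem_Icc] at hj
      exact term_eq i k Y hY N J a h l t g m j hg1 hh hgh hl hlh hm1 hmN hc hj.1 hj.2
  · intro n _
    rw [Nat.mem_divisors]
    exact ⟨Nat.gcd_dvd_left h n, by omega⟩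

theorem KK_nonneg (k : ℕ) (Y : ℝ) : 0 ≤ KK k Y := by
  unfold KK
  positivity

theorem norm_Ft_sq (i : Fin 2) (k : ℕ) (Y : ℝ) (hY : 0 < Y) (N J : ℕ) (a : ℕ → ℝ) (h l : ℕ) (t : ℝ)
    (hh : 1 ≤ h) (hl : 1 ≤ l) (hlh : Nat.Coprime h l) :
    ‖Ft i k Y N J a h l t‖ ^ 2 ≤ KK k Y ^ 2 * (h.divisors.card : ℝ) * ∑ g ∈ h.divisors,
      (1 / (g : ℝ)) * ‖TT a t N J g (h / g) (xr i (h / g) l)‖ ^ 2 := by
  rw [Ft_eq i k Y hY N J a h l t hh hl hlh]
  have h1 : ‖∑ g ∈ h.divisors, (((KK k Y : ℝ) : ℂ) * ((1 / Real.sqrt g : ℝ) : ℂ) *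
        EE t (4 * Real.pi ^ 2 * Y / ((l : ℝ) * ((h / g : ℕ) : ℝ)))) *
        TT a t N J g (h / g) (xr i (h / g) l)‖ ≤ ∑ g ∈ h.divisors, ‖(((KK k Y : ℝ) : ℂ) * ((1 / Real.sqrt g : ℝ) : ℂ) *
        EE t (4 * Real.pi ^ 2 * Y / ((l : ℝ) * ((h / g : ℕ) : ℝ)))) *
        TT a t N J g (h / g) (xr i (h / g) l)‖ := norm_sum_le _ _
  have h2 := pow_le_pow_left₀ (norm_nonneg _) h1 2
  refine h2.trans ((sq_sum_le_card_mul_sum_sq).trans ?_)
  have hcard : (0 : ℝ) ≤ (h.divisors.card : ℝ) := Nat.cast_nonneg _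
  rw [mul_comm (KK k Y ^ 2) (h.divisors.card : ℝ), mul_assoc (h.divisors.card : ℝ)]
  refine mul_le_mul_of_nonneg_left ?_ hcard
  rw [Finset.mul_sum]
  refine Finset.sum_le_sum fun g hg => ?_
  have hgh : g ∣ h := Nat.dvd_of_mem_divisors hg
  have hg1 : 1 ≤ g := Nat.pos_of_mem_divisors hg
  have hq : 1 ≤ h / g := Nat.div_pos (Nat.le_of_dvd hh hgh) hg1
  have hg' : (0 : ℝ) < g := by exact_mod_cast hg1
  have hl' : (0 : ℝ) < l := by exact_mod_cast hl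
  have hq' : (0 : ℝ) < ((h / g : ℕ) : ℝ) := by exact_mod_cast hq
  have hpi := Real.pi_pos
  rw [norm_mul, norm_mul, norm_mul, norm_EE t _ (by positivity), mul_one, Complex.norm_real,
    Complex.norm_real, Real.norm_of_nonneg (KK_nonneg k Y), Real.norm_of_nonneg (by positivity),
    mul_pow, mul_pow, div_pow, one_pow, Real.sq_sqrt hg'.le]
  rw [mul_assoc]

/-- sum of the squares over the residue classes -/
def VV (a : ℕ → ℝ) (t : ℝ) (N J g q : ℕ) : ℝ :=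
  ∑ x ∈ (range q).filter (fun x => Nat.Coprime x q), ‖TT a t N J g q x‖ ^ 2

theorem VV_nonneg (a : ℕ → ℝ) (t : ℝ) (N J g q : ℕ) : 0 ≤ VV a t N J g q :=
  Finset.sum_nonneg fun _ _ => by positivity

theorem sum_Ft_l (i : Fin 2) (k : ℕ) (Y : ℝ) (hY : 0 < Y) (N J : ℕ) (a : ℕ → ℝ) (H L h : ℕ) (t : ℝ)
    (hH : 1 ≤ H) (hL : 1 ≤ L) (hh : h ∈ Ico H (2 * H)) (D : ℝ) (hD : (h.divisors.card : ℝ) ≤ D) :
    ∑ l ∈ (Ico L (2 * L)).filter (fun l => Nat.Coprime h l), ‖Ft i k Y N J a h l t‖ ^ 2 ≤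
      KK k Y ^ 2 * D * (1 + (L : ℝ) / H) * ∑ g ∈ h.divisors, VV a t N J g (h / g) := by
  rw [Finset.mem_Ico] at hh
  have hh1 : 1 ≤ h := by omega
  have hD0 : 0 ≤ D := (Nat.cast_nonneg _).trans hD
  have hH' : (0 : ℝ) < H := by exact_mod_cast hH
  have h1 : ∀ l ∈ (Ico L (2 * L)).filter (fun l => Nat.Coprime h l), ‖Ft i k Y N J a h l t‖ ^ 2 ≤
      KK k Y ^ 2 * D * ∑ g ∈ h.divisors,
      (1 / (g : ℝ)) * ‖TT a t N J g (h / g) (xr i (h / g) l)‖ ^ 2 := by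
    intro l hl
    rw [Finset.mem_filter, Finset.mem_Ico] at hl
    refine (norm_Ft_sq i k Y hY N J a h l t hh1 (by omega) hl.2).trans ?_
    refine mul_le_mul_of_nonneg_right ?_ (Finset.sum_nonneg fun g _ => by positivity)
    exact mul_le_mul_of_nonneg_left hD (by positivity)
  refine (Finset.sum_le_sum h1).trans ?_
  rw [← Finset.mul_sum, Finset.sum_comm, mul_assoc (KK k Y ^ 2 * D)]
  refine mul_le_mul_of_nonneg_left ?_ (by positivity)
  rw [Finset.mul_sum]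
  refine Finset.sum_le_sum fun g hg => ?_
  have hgh : g ∣ h := Nat.dvd_of_mem_divisors hg
  have hg1 : 1 ≤ g := Nat.pos_of_mem_divisors hg
  have hq : 1 ≤ h / g := Nat.div_pos (Nat.le_of_dvd hh1 hgh) hg1
  have hg' : (0 : ℝ) < g := by exact_mod_cast hg1
  rw [← Finset.mul_sum]
  -- enlarge the set of `l`
  have h2 : ∑ l ∈ (Ico L (2 * L)).filter (fun l => Nat.Coprime h l),
      ‖TT a t N J g (h / g) (xr i (h / g) l)‖ ^ 2 ≤
      ∑ l ∈ (Ico L (2 * L)).filter (fun l => Nat.Coprime l (h / g)),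
      ‖TT a t N J g (h / g) (xr i (h / g) l)‖ ^ 2 := by
    refine Finset.sum_le_sum_of_subset_of_nonneg ?_ (fun _ _ _ => by positivity)
    intro l hl
    rw [Finset.mem_filter] at hl ⊢
    exact ⟨hl.1, (Nat.Coprime.coprime_dvd_left (Nat.div_dvd_of_dvd hgh) hl.2).symm⟩
  have h3 := sum_xr_le i (h / g) L hq (fun x => ‖TT a t N J g (h / g) x‖ ^ 2) (fun _ => by positivity)
  have h4 : (1 / (g : ℝ)) * ((L / (h / g) : ℕ) + 1 : ℝ) ≤ 1 + (L : ℝ) / H := by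
    have e1 : ((L / (h / g) : ℕ) : ℝ) ≤ (L : ℝ) / ((h / g : ℕ) : ℝ) := Nat.cast_div_le
    have hq' : (0 : ℝ) < ((h / g : ℕ) : ℝ) := by exact_mod_cast hq
    have e2 : ((h / g : ℕ) : ℝ) * g = h := by
      rw [← Nat.cast_mul, Nat.div_mul_cancel hgh]
    have e3 : (L : ℝ) / ((h / g : ℕ) : ℝ) = L * g / h := by
      rw [← e2]; field_simp
    have hHh : (H : ℝ) ≤ h := by exact_mod_cast hh.1
    have hh' : (0 : ℝ) < h := hH'.trans_le hHh
    have e4 : (L : ℝ) * g / h ≤ L * g / H := by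
      apply div_le_div_of_nonneg_left (by positivity) hH' hHh
    have e5 : (1 / (g : ℝ)) * (L * g / H) = (L : ℝ) / H := by field_simp
    have e6 : (1 / (g : ℝ)) ≤ 1 := by
      rw [div_le_one hg']; exact_mod_cast hg1
    calc (1 / (g : ℝ)) * ((L / (h / g) : ℕ) + 1 : ℝ) ≤ (1 / (g : ℝ)) * (L * g / H + 1) := by
          refine mul_le_mul_of_nonneg_left ?_ (by positivity)
          linarith [e1, e3.le, e4]
      _ = (L : ℝ) / H + 1 / (g : ℝ) := by rw [mul_add, e5, mul_one]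
      _ ≤ 1 + (L : ℝ) / H := by linarith
  calc (1 / (g : ℝ)) * ∑ l ∈ (Ico L (2 * L)).filter (fun l => Nat.Coprime h l),
      ‖TT a t N J g (h / g) (xr i (h / g) l)‖ ^ 2
      ≤ (1 / (g : ℝ)) * (((L / (h / g) : ℕ) + 1 : ℝ) * VV a t N J g (h / g)) :=
        mul_le_mul_of_nonneg_left (h2.trans h3) (by positivity)
    _ = ((1 / (g : ℝ)) * ((L / (h / g) : ℕ) + 1 : ℝ)) * VV a t N J g (h / g) := by ring
    _ ≤ (1 + (L : ℝ) / H) * VV a t N J g (h / g) :=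
        mul_le_mul_of_nonneg_right h4 (VV_nonneg _ _ _ _ _ _)

theorem sum_div_le (H : ℕ) (hH : 1 ≤ H) (V : ℕ → ℕ → ℝ) (hV : ∀ g q, 0 ≤ V g q) :
    ∑ h ∈ Ico H (2 * H), ∑ g ∈ h.divisors, V g (h / g) ≤
      ∑ g ∈ Icc 1 (2 * H), ∑ q ∈ Icc 1 (2 * H / g), V g q := by
  rw [Finset.sum_sigma', Finset.sum_sigma']
  have hinj : Set.InjOn (fun x : (Σ _ : ℕ, ℕ) => (⟨x.2, x.1 / x.2⟩ : Σ _ : ℕ, ℕ))
      ((Ico H (2 * H)).sigma (fun h => h.divisors) : Finset (Σ _ : ℕ, ℕ)) := by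
    rintro ⟨h, g⟩ hx ⟨h', g'⟩ hx' he
    rw [Finset.mem_coe, Finset.mem_sigma] at hx hx'
    simp only at hx hx' he
    rw [Sigma.mk.injEq] at he
    obtain ⟨h1, h2⟩ := he
    have h2 := eq_of_heq h2
    subst h1
    have e1 := Nat.div_mul_cancel (Nat.dvd_of_mem_divisors hx.2)
    have e2 := Nat.div_mul_cancel (Nat.dvd_of_mem_divisors hx'.2)
    rw [h2, e2] at e1
    rw [e1]
  have h1 : ∑ x ∈ (Ico H (2 * H)).sigma (fun h => h.divisors), V x.2 (x.1 / x.2) =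
      ∑ y ∈ ((Ico H (2 * H)).sigma (fun h => h.divisors)).image
        (fun x : (Σ _ : ℕ, ℕ) => (⟨x.2, x.1 / x.2⟩ : Σ _ : ℕ, ℕ)), V y.1 y.2 := by
    rw [Finset.sum_image hinj]
  rw [h1]
  refine Finset.sum_le_sum_of_subset_of_nonneg ?_ (fun y _ _ => hV y.1 y.2)
  intro y hy
  rw [Finset.mem_image] at hy
  obtain ⟨⟨h, g⟩, hx, rfl⟩ := hy
  rw [Finset.mem_sigma, Finset.mem_Ico] at hx
  simp only at hx
  have hgh : g ∣ h := Nat.dvd_of_mem_divisors hx.2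
  have hg1 : 1 ≤ g := Nat.pos_of_mem_divisors hx.2
  have hgle : g ≤ h := Nat.le_of_dvd (by omega) hgh
  rw [Finset.mem_sigma, Finset.mem_Icc, Finset.mem_Icc]
  simp only
  exact ⟨⟨hg1, by omega⟩, Nat.div_pos hgle hg1, Nat.div_le_div_right (by omega)⟩

theorem sum_Ft (i : Fin 2) (k : ℕ) (Y : ℝ) (hY : 0 < Y) (N J : ℕ) (a : ℕ → ℝ) (H L : ℕ) (t : ℝ)
    (hH : 1 ≤ H) (hL : 1 ≤ L) (D : ℝ) (hD : ∀ h ∈ Ico H (2 * H), (h.divisors.card : ℝ) ≤ D) :
    ∑ h ∈ Ico H (2 * H), ∑ l ∈ (Ico L (2 * L)).filter (fun l => Nat.Coprime h l),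
      ‖Ft i k Y N J a h l t‖ ^ 2 ≤
      KK k Y ^ 2 * D * (1 + (L : ℝ) / H) *
        ∑ g ∈ Icc 1 (2 * H), ∑ q ∈ Icc 1 (2 * H / g), VV a t N J g q := by
  have hD0 : 0 ≤ D := (Nat.cast_nonneg _).trans (hD H (by rw [Finset.mem_Ico]; omega))
  refine (Finset.sum_le_sum fun h hh => sum_Ft_l i k Y hY N J a H L h t hH hL hh D (hD h hh)).trans ?_
  rw [← Finset.mul_sum]
  refine mul_le_mul_of_nonneg_left ?_ (by positivity)
  exact sum_div_le H hH (fun g q => VV a t N J g q) (fun g q => VV_nonneg _ _ _ _ _ _)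

end

end Pool.Agent.H116R2.EM
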