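import Pool.Agent.H116R2.EM_T9C
import Pool.Agent.Helper112.Arith

set_option autoImplicit false

/-! Task T9 of the project EM, part D: application of the large sieve. -/

namespace Pool.Agent.H116R2.EM

open Finset Filter Topology MeasureTheory Complex
open Pool.Agent.H306R2 Pool.Agent.H306R2.SM Pool.Agent.H223.EM

noncomputable section

/-- statement of the bilinear large sieve (stub T8) with given constant -/
def BILC (ε C : ℝ) : Prop := ∀ (Q N J : ℕ), 1 ≤ Q → 1 ≤ N → 1 ≤ J →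
    ∀ α β : ℕ → ℂ, (∀ n, 1 ≤ n → ‖α n‖ ≤ 1 / Real.sqrt n) → (∀ j, 1 ≤ j → ‖β j‖ ≤ 1 / Real.sqrt j) →
    ∑ q ∈ Icc 1 Q, ∑ x ∈ (range q).filter (fun x => Nat.Coprime x q),
      ‖∑ n ∈ (Icc 1 N).filter (fun n => Nat.Coprime n q), ∑ j ∈ Icc 1 J,
        α n * β j * ee q ((x : ℤ) * j * iv q n)‖ ^ 2 ≤
      C * ((Q : ℝ) * N * J) ^ ε * ((Q : ℝ) ^ 2 + N * J)

theorem norm_al (a : ℕ → ℝ) (t : ℝ) (N g n : ℕ) (ε C : ℝ) (hε : 0 < ε) (hC : 0 < C)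
    (hdiv : ∀ n : ℕ, 1 ≤ n → (n.divisors.card : ℝ) ≤ C * (n : ℝ) ^ ε)
    (ha : ∀ n, |a n| ≤ d2 n) (hg : 1 ≤ g) (hn : 1 ≤ n) (hN : 1 ≤ N) :
    ‖al a t N g n / ((C * (N : ℝ) ^ ε : ℝ) : ℂ)‖ ≤ 1 / Real.sqrt n := by
  have hn' : (0 : ℝ) < n := by exact_mod_cast hn
  have hN' : (0 : ℝ) < N := by exact_mod_cast hN
  have hpos : 0 < C * (N : ℝ) ^ ε := by positivity
  have hsn : 0 < Real.sqrt n := Real.sqrt_pos.2 hn'
  unfold al
  split_ifs with h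
  · rw [norm_div, norm_mul, norm_inv, norm_EE t n hn', inv_one, mul_one, Complex.norm_real,
      Complex.norm_real, Real.norm_of_nonneg hpos.le, norm_div, Real.norm_of_nonneg hsn.le,
      Real.norm_eq_abs, div_div, div_le_div_iff₀ (by positivity) hsn, one_mul]
    have h1 : g * n ≤ N := (Nat.mul_le_mul_left g h).trans (Nat.mul_div_le N g)
    have h2 : |a (g * n)| ≤ C * (N : ℝ) ^ ε := by
      refine (ha _).trans ?_
      unfold d2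
      refine (hdiv (g * n) (Nat.mul_pos hg hn)).trans ?_
      refine mul_le_mul_of_nonneg_left ?_ hC.le
      exact Real.rpow_le_rpow (Nat.cast_nonneg _) (by exact_mod_cast h1) hε.le
    calc |a (g * n)| * Real.sqrt n ≤ (C * (N : ℝ) ^ ε) * Real.sqrt n :=
          mul_le_mul_of_nonneg_right h2 hsn.le
      _ = Real.sqrt n * (C * (N : ℝ) ^ ε) := mul_comm _ _
  · rw [zero_div, norm_zero]
    positivity

theorem norm_be (t : ℝ) (J j : ℕ) (ε C : ℝ) (hε : 0 < ε) (hC : 0 < C)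
    (hdiv : ∀ n : ℕ, 1 ≤ n → (n.divisors.card : ℝ) ≤ C * (n : ℝ) ^ ε)
    (hj : 1 ≤ j) (hJ : 1 ≤ J) :
    ‖be t J j / ((C * (J : ℝ) ^ ε : ℝ) : ℂ)‖ ≤ 1 / Real.sqrt j := by
  have hj' : (0 : ℝ) < j := by exact_mod_cast hj
  have hJ' : (0 : ℝ) < J := by exact_mod_cast hJ
  have hpos : 0 < C * (J : ℝ) ^ ε := by positivity
  have hsj : 0 < Real.sqrt j := Real.sqrt_pos.2 hj'
  have hd0 : 0 ≤ d2 j := by unfold d2; positivity
  unfold be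
  split_ifs with h
  · rw [norm_div, norm_mul, norm_EE t j hj', mul_one, Complex.norm_real,
      Complex.norm_real, Real.norm_of_nonneg hpos.le, norm_div, Real.norm_of_nonneg hsj.le,
      Real.norm_of_nonneg hd0, div_div, div_le_div_iff₀ (by positivity) hsj, one_mul]
    have h2 : d2 j ≤ C * (J : ℝ) ^ ε := by
      unfold d2
      refine (hdiv j hj).trans ?_
      refine mul_le_mul_of_nonneg_left ?_ hC.le
      exact Real.rpow_le_rpow (Nat.cast_nonneg _) (by exact_mod_cast h) hε.le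
    calc d2 j * Real.sqrt j ≤ (C * (J : ℝ) ^ ε) * Real.sqrt j :=
          mul_le_mul_of_nonneg_right h2 hsj.le
      _ = Real.sqrt j * (C * (J : ℝ) ^ ε) := mul_comm _ _
  · rw [zero_div, norm_zero]
    positivity

theorem sum_VV_g (a : ℕ → ℝ) (t : ℝ) (N J H g : ℕ) (ε C C2 : ℝ) (hε : 0 < ε) (hC : 0 < C)
    (hC2 : 0 < C2)
    (hdiv : ∀ n : ℕ, 1 ≤ n → (n.divisors.card : ℝ) ≤ C * (n : ℝ) ^ ε) (hB : BILC ε C2)
    (ha : ∀ n, |a n| ≤ d2 n) (hg : 1 ≤ g) (hgH : g ≤ 2 * H) (hgN : g ≤ N) (hN : 1 ≤ N) (hJ : 1 ≤ J)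
    (hH : 1 ≤ H) :
    ∑ q ∈ Icc 1 (2 * H / g), VV a t N J g q ≤
      ((C * (N : ℝ) ^ ε) * (C * (J : ℝ) ^ ε)) ^ 2 * (C2 * (2 * (H : ℝ) * N * J) ^ ε *
        (4 * ((H : ℝ) ^ 2 + N * J))) * (g : ℝ)⁻¹ := by
  have hN' : (0 : ℝ) < N := by exact_mod_cast hN
  have hJ' : (0 : ℝ) < J := by exact_mod_cast hJ
  have hH' : (0 : ℝ) < H := by exact_mod_cast hH
  have hg' : (0 : ℝ) < g := by exact_mod_cast hg
  have hQ : 1 ≤ 2 * H / g := Nat.div_pos hgH hg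
  have hNg : 1 ≤ N / g := Nat.div_pos hgN hg
  set A1 : ℝ := C * (N : ℝ) ^ ε with hA1
  set B1 : ℝ := C * (J : ℝ) ^ ε with hB1
  have hA0 : 0 < A1 := by positivity
  have hB0 : 0 < B1 := by positivity
  have hAc : (A1 : ℂ) ≠ 0 := by exact_mod_cast hA0.ne'
  have hBc : (B1 : ℂ) ≠ 0 := by exact_mod_cast hB0.ne'
  have h1 := hB (2 * H / g) (N / g) J hQ hNg hJ (fun n => al a t N g n / (A1 : ℂ))
    (fun j => be t J j / (B1 : ℂ))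
    (fun n hn => norm_al a t N g n ε C hε hC hdiv ha hg hn hN)
    (fun j hj => norm_be t J j ε C hε hC hdiv hj hJ)
  have h2 : ∀ q x : ℕ, TT a t N J g q x = ((A1 : ℂ) * (B1 : ℂ)) *
      ∑ n ∈ (Icc 1 (N / g)).filter (fun n => Nat.Coprime n q), ∑ j ∈ Icc 1 J,
        (al a t N g n / (A1 : ℂ)) * (be t J j / (B1 : ℂ)) * ee q ((x : ℤ) * j * iv q n) := by
    intro q x
    unfold TT
    rw [Finset.mul_sum]
    refine Finset.sum_congr rfl fun n _ => ?_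
    rw [Finset.mul_sum]
    refine Finset.sum_congr rfl fun j _ => ?_
    field_simp
  have h3 : ∑ q ∈ Icc 1 (2 * H / g), VV a t N J g q = (A1 * B1) ^ 2 *
      ∑ q ∈ Icc 1 (2 * H / g), ∑ x ∈ (range q).filter (fun x => Nat.Coprime x q),
      ‖∑ n ∈ (Icc 1 (N / g)).filter (fun n => Nat.Coprime n q), ∑ j ∈ Icc 1 J,
        (al a t N g n / (A1 : ℂ)) * (be t J j / (B1 : ℂ)) * ee q ((x : ℤ) * j * iv q n)‖ ^ 2 := by
    rw [Finset.mul_sum]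
    refine Finset.sum_congr rfl fun q _ => ?_
    unfold VV
    rw [Finset.mul_sum]
    refine Finset.sum_congr rfl fun x _ => ?_
    rw [h2 q x, norm_mul, norm_mul, Complex.norm_real, Complex.norm_real,
      Real.norm_of_nonneg hA0.le, Real.norm_of_nonneg hB0.le, mul_pow]
  rw [h3, mul_assoc ((A1 * B1) ^ 2)]
  refine mul_le_mul_of_nonneg_left (h1.trans ?_) (by positivity)
  -- numerics
  have hQr : ((2 * H / g : ℕ) : ℝ) ≤ 2 * H / g := by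
    have := @Nat.cast_div_le ℝ _ _ _ (2 * H) g
    push_cast at this
    exact this
  have hNr : ((N / g : ℕ) : ℝ) ≤ N / g := Nat.cast_div_le
  have hg1 : (1 : ℝ) ≤ g := by exact_mod_cast hg
  have hQ2 : ((2 * H / g : ℕ) : ℝ) ≤ 2 * H := hQr.trans (div_le_self (by positivity) hg1)
  have hN2 : ((N / g : ℕ) : ℝ) ≤ N := hNr.trans (div_le_self (by positivity) hg1)
  have e1 : (((2 * H / g : ℕ) : ℝ) * ((N / g : ℕ) : ℝ) * J) ^ ε ≤ (2 * (H : ℝ) * N * J) ^ ε := by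
    apply Real.rpow_le_rpow (by positivity) _ hε.le
    gcongr
  have e2 : ((2 * H / g : ℕ) : ℝ) ^ 2 + ((N / g : ℕ) : ℝ) * J ≤
      4 * ((H : ℝ) ^ 2 + N * J) * (g : ℝ)⁻¹ := by
    have f1 : ((2 * H / g : ℕ) : ℝ) ^ 2 ≤ 4 * (H : ℝ) ^ 2 * (g : ℝ)⁻¹ := by
      have f2 : ((2 * H / g : ℕ) : ℝ) ^ 2 ≤ (2 * H / g) ^ 2 :=
        pow_le_pow_left₀ (Nat.cast_nonneg _) hQr 2
      refine f2.trans ?_
      have f3 : (2 * (H : ℝ) / g) ^ 2 = 4 * (H : ℝ) ^ 2 * (g : ℝ)⁻¹ * (g : ℝ)⁻¹ := by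
        field_simp; ring
      rw [f3]
      have f4 : (g : ℝ)⁻¹ ≤ 1 := inv_le_one_of_one_le₀ hg1
      calc 4 * (H : ℝ) ^ 2 * (g : ℝ)⁻¹ * (g : ℝ)⁻¹ ≤ 4 * (H : ℝ) ^ 2 * (g : ℝ)⁻¹ * 1 :=
            mul_le_mul_of_nonneg_left f4 (by positivity)
        _ = _ := mul_one _
    have f5 : ((N / g : ℕ) : ℝ) * J ≤ 4 * (N * J) * (g : ℝ)⁻¹ := by
      calc ((N / g : ℕ) : ℝ) * J ≤ (N / g) * J := mul_le_mul_of_nonneg_right hNr hJ'.le
        _ = (N * J) * (g : ℝ)⁻¹ := by field_simp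
        _ ≤ 4 * (N * J) * (g : ℝ)⁻¹ := by
            have : 0 ≤ (N : ℝ) * J * (g : ℝ)⁻¹ := by positivity
            linarith
    calc ((2 * H / g : ℕ) : ℝ) ^ 2 + ((N / g : ℕ) : ℝ) * J
        ≤ 4 * (H : ℝ) ^ 2 * (g : ℝ)⁻¹ + 4 * (N * J) * (g : ℝ)⁻¹ := add_le_add f1 f5
      _ = 4 * ((H : ℝ) ^ 2 + N * J) * (g : ℝ)⁻¹ := by ring
  calc C2 * (((2 * H / g : ℕ) : ℝ) * ((N / g : ℕ) : ℝ) * J) ^ ε *
        (((2 * H / g : ℕ) : ℝ) ^ 2 + ((N / g : ℕ) : ℝ) * J)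
      ≤ C2 * (2 * (H : ℝ) * N * J) ^ ε * (4 * ((H : ℝ) ^ 2 + N * J) * (g : ℝ)⁻¹) := by
        apply mul_le_mul _ e2 (by positivity) (by positivity)
        exact mul_le_mul_of_nonneg_left e1 hC2.le
    _ = _ := by ring

theorem VV_zero (a : ℕ → ℝ) (t : ℝ) (N J g q : ℕ) (hg : N < g) : VV a t N J g q = 0 := by
  unfold VV TT
  rw [Nat.div_eq_of_lt hg]
  simp

theorem sum_VV (a : ℕ → ℝ) (t : ℝ) (N J H : ℕ) (ε C C2 : ℝ) (hε : 0 < ε) (hC : 0 < C)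
    (hC2 : 0 < C2)
    (hdiv : ∀ n : ℕ, 1 ≤ n → (n.divisors.card : ℝ) ≤ C * (n : ℝ) ^ ε) (hB : BILC ε C2)
    (ha : ∀ n, |a n| ≤ d2 n) (hN : 1 ≤ N) (hJ : 1 ≤ J) (hH : 1 ≤ H) :
    ∑ g ∈ Icc 1 (2 * H), ∑ q ∈ Icc 1 (2 * H / g), VV a t N J g q ≤
      ((C * (N : ℝ) ^ ε) * (C * (J : ℝ) ^ ε)) ^ 2 * (C2 * (2 * (H : ℝ) * N * J) ^ ε *
        (4 * ((H : ℝ) ^ 2 + N * J))) * ((1 + 1 / ε) * (N : ℝ) ^ ε) := by
  have hN' : (0 : ℝ) < N := by exact_mod_cast hN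
  set M : ℝ := ((C * (N : ℝ) ^ ε) * (C * (J : ℝ) ^ ε)) ^ 2 * (C2 * (2 * (H : ℝ) * N * J) ^ ε *
        (4 * ((H : ℝ) ^ 2 + N * J))) with hM
  have hM0 : 0 ≤ M := by positivity
  have h1 : ∑ g ∈ Icc 1 (2 * H), ∑ q ∈ Icc 1 (2 * H / g), VV a t N J g q ≤
      ∑ g ∈ Icc 1 (2 * H), if g ≤ N then M * (g : ℝ)⁻¹ else 0 := by
    refine Finset.sum_le_sum fun g hg => ?_
    rw [Finset.mem_Icc] at hg
    split_ifs with hgN
    · exact sum_VV_g a t N J H g ε C C2 hε hC hC2 hdiv hB ha hg.1 hg.2 hgN hN hJ hH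
    · refine le_of_eq (Finset.sum_eq_zero fun q _ => VV_zero a t N J g q (by omega))
  refine h1.trans ?_
  rw [← Finset.sum_filter]
  have h2 : ∑ g ∈ (Icc 1 (2 * H)).filter (fun g => g ≤ N), M * (g : ℝ)⁻¹ ≤
      ∑ g ∈ Icc 1 N, M * (g : ℝ)⁻¹ := by
    refine Finset.sum_le_sum_of_subset_of_nonneg ?_ (fun _ _ _ => by positivity)
    intro g hg
    rw [Finset.mem_filter, Finset.mem_Icc] at hg
    rw [Finset.mem_Icc]
    exact ⟨hg.1.1, hg.2⟩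
  refine h2.trans ?_
  rw [← Finset.mul_sum]
  refine mul_le_mul_of_nonneg_left ?_ hM0
  have h3 := harmonic_le_one_add_log N
  rw [harmonic_eq_sum_Icc] at h3
  push_cast at h3
  refine h3.trans ?_
  have h4 := Real.log_le_rpow_div hN'.le hε
  have h5 : (1 : ℝ) ≤ (N : ℝ) ^ ε := Real.one_le_rpow (by exact_mod_cast hN) hε.le
  calc 1 + Real.log N ≤ (N : ℝ) ^ ε + (N : ℝ) ^ ε / ε := add_le_add h5 h4
    _ = (1 + 1 / ε) * (N : ℝ) ^ ε := by ring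

/-- the uniform bound -/
theorem sum_Ft_le (i : Fin 2) (k : ℕ) (Y : ℝ) (hY : 0 < Y) (N J : ℕ) (a : ℕ → ℝ) (H L : ℕ) (t : ℝ)
    (hN : 1 ≤ N) (hJ : 1 ≤ J) (hH : 1 ≤ H) (hL : 1 ≤ L) (ε C C2 : ℝ) (hε : 0 < ε) (hC : 0 < C)
    (hC2 : 0 < C2)
    (hdiv : ∀ n : ℕ, 1 ≤ n → (n.divisors.card : ℝ) ≤ C * (n : ℝ) ^ ε) (hB : BILC ε C2)
    (ha : ∀ n, |a n| ≤ d2 n) :
    ∑ h ∈ Ico H (2 * H), ∑ l ∈ (Ico L (2 * L)).filter (fun l => Nat.Coprime h l),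
      ‖Ft i k Y N J a h l t‖ ^ 2 ≤
      KK k Y ^ 2 * (C ^ 5 * C2 * 4 * (1 + 1 / ε) * ((2 : ℝ) ^ ε) ^ 2) *
        ((H : ℝ) * L * N * J) ^ (4 * ε) * (1 + (L : ℝ) / H) * ((H : ℝ) ^ 2 + N * J) := by
  have hN' : (1 : ℝ) ≤ N := by exact_mod_cast hN
  have hJ' : (1 : ℝ) ≤ J := by exact_mod_cast hJ
  have hH' : (1 : ℝ) ≤ H := by exact_mod_cast hH
  have hL' : (1 : ℝ) ≤ L := by exact_mod_cast hL
  have hN0 : (0 : ℝ) ≤ N := by linarith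
  have hJ0 : (0 : ℝ) ≤ J := by linarith
  have hH0 : (0 : ℝ) ≤ H := by linarith
  have hL0 : (0 : ℝ) ≤ L := by linarith
  have hD : ∀ h ∈ Ico H (2 * H), (h.divisors.card : ℝ) ≤ C * (2 * (H : ℝ)) ^ ε := by
    intro h hh
    rw [Finset.mem_Ico] at hh
    refine (hdiv h (by omega)).trans ?_
    refine mul_le_mul_of_nonneg_left ?_ hC.le
    refine Real.rpow_le_rpow (Nat.cast_nonneg _) ?_ hε.le
    have : h ≤ 2 * H := by omega
    exact_mod_cast this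
  refine (sum_Ft i k Y hY N J a H L t hH hL _ hD).trans ?_
  have h1 := sum_VV a t N J H ε C C2 hε hC hC2 hdiv hB ha hN hJ hH
  refine (mul_le_mul_of_nonneg_left h1 (by positivity)).trans ?_
  set x := (H : ℝ) ^ ε with hx
  set y := (L : ℝ) ^ ε with hy
  set z := (N : ℝ) ^ ε with hz
  set w := (J : ℝ) ^ ε with hw
  have hx1 : 1 ≤ x := Real.one_le_rpow hH' hε.le
  have hy1 : 1 ≤ y := Real.one_le_rpow hL' hε.le
  have hz1 : 1 ≤ z := Real.one_le_rpow hN' hε.le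
  have hw1 : 1 ≤ w := Real.one_le_rpow hJ' hε.le
  have e1 : (2 * (H : ℝ)) ^ ε = 2 ^ ε * x := by
    rw [Real.mul_rpow (by norm_num) hH0]
  have e2 : (2 * (H : ℝ) * N * J) ^ ε = 2 ^ ε * x * z * w := by
    rw [Real.mul_rpow (by positivity) hJ0, Real.mul_rpow (by positivity) hN0, e1]
  have e3 : ((H : ℝ) * L * N * J) ^ (4 * ε) = (x * y * z * w) ^ 4 := by
    rw [mul_comm 4 ε, Real.rpow_mul (by positivity), Real.mul_rpow (by positivity) hJ0,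
      Real.mul_rpow (by positivity) hN0, Real.mul_rpow hH0 hL0]
    norm_cast
  rw [e1, e2, e3]
  have e4 : x ^ 2 * z ^ 4 * w ^ 3 ≤ (x * y * z * w) ^ 4 := by
    have f1 : x ^ 2 ≤ x ^ 4 := pow_le_pow_right₀ hx1 (by norm_num)
    have f2 : w ^ 3 ≤ w ^ 4 := pow_le_pow_right₀ hw1 (by norm_num)
    have f3 : 1 ≤ y ^ 4 := one_le_pow₀ hy1
    calc x ^ 2 * z ^ 4 * w ^ 3 ≤ x ^ 4 * z ^ 4 * w ^ 4 := by gcongr
      _ = (x ^ 4 * z ^ 4 * w ^ 4) * 1 := (mul_one _).symm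
      _ ≤ (x ^ 4 * z ^ 4 * w ^ 4) * y ^ 4 := mul_le_mul_of_nonneg_left f3 (by positivity)
      _ = (x * y * z * w) ^ 4 := by ring
  have e5 : KK k Y ^ 2 * (C * (2 ^ ε * x)) * (1 + (L : ℝ) / H) *
      ((C * z * (C * w)) ^ 2 * (C2 * (2 ^ ε * x * z * w) * (4 * ((H : ℝ) ^ 2 + N * J))) *
        ((1 + 1 / ε) * z)) =
      (KK k Y ^ 2 * (C ^ 5 * C2 * 4 * (1 + 1 / ε) * ((2 : ℝ) ^ ε) ^ 2) * (1 + (L : ℝ) / H) *
        ((H : ℝ) ^ 2 + N * J)) * (x ^ 2 * z ^ 4 * w ^ 3) := by ring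
  rw [e5]
  refine (mul_le_mul_of_nonneg_left e4 (by positivity)).trans (le_of_eq ?_)
  ring

end

end Pool.Agent.H116R2.EM
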