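import Pool.Agent.H116R2.RZ5_NM_F
import Pool.Agent.H58R2.RZ5_LS2
import Pool.Agent.H375R3.RZ5_PO

set_option autoImplicit false

/-!
Project RZ, task NM2 : second moments of smooth dyadic sums; the fourth moments (task NM4) follow
from `NMq 2` and `LS4` in the same way.
-/

namespace Pool.Agent.H116R2.RZ5NM

open Finset Filter Topology MeasureTheory Pool.Agent.H306R2.RZ

noncomputable section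

theorem LSq_one : LSq 1 := by
  intro ε hε
  obtain ⟨C, hC, h⟩ := Pool.Agent.H58R2.RZ5LS2.LS2 ε hε
  exact ⟨C, hC, fun K H c hK hH hc => by simpa using h K H c hK hH hc⟩

/-- the same with second moments (only uses `LS2`) -/
theorem NM2 (ε : ℝ) (hε : 0 < ε) : ∃ (C : ℝ) (A : ℕ), 0 < C ∧ ∀ (K : ℕ) (y D : ℝ) (ψ : ℕ → ℂ)
    (φ : ℝ → ℂ), 1 ≤ K → 1 / 2 ≤ y → (∀ m, ‖ψ m‖ ≤ 1) → (∀ m, ψ (m + 8) = ψ m) →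
    ContDiff ℝ ((⊤ : ℕ∞) : WithTop ℕ∞) φ → (∀ u, φ u ≠ 0 → 1 / 2 ≤ u ∧ u ≤ 2) →
    (∀ j ≤ A, ∀ u, ‖iteratedDeriv j φ u‖ ≤ D) →
    ∑ κ ∈ (osf K).filter (fun κ => 1 < κ),
        ‖∑' m : ℕ, if Odd m then ψ m * (js m κ : ℂ) * φ (m / y) else 0‖ ^ 2 ≤
      C * D ^ 2 * ((K : ℝ) * y) ^ ε * (K * y) := by
  obtain ⟨C, A, hC, h⟩ := NMq 1 le_rfl LSq_one Pool.Agent.H375R3.RZ5.PO ε hε
  exact ⟨C, A, hC, fun K y D ψ φ hK hy hψ hψ8 hφ hs hD => by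
    simpa using h K y D ψ φ hK hy hψ hψ8 hφ hs hD⟩

/-- the fourth moments, from `LS4` -/
theorem NM4_of_LS4 (hLS4 : ∀ (ε : ℝ) (_ : 0 < ε), ∃ C : ℝ, 0 < C ∧ ∀ (K H : ℕ) (c : ℕ → ℂ), 1 ≤ K →
    1 ≤ H → (∀ h, ‖c h‖ ≤ 1) →
    ∑ κ ∈ osf K, ‖∑ h ∈ Icc 1 H, c h * (js h κ : ℂ)‖ ^ 4 ≤
      C * ((K : ℝ) * H) ^ ε * ((K : ℝ) + (H : ℝ) ^ 2) * (H : ℝ) ^ 2)
    (ε : ℝ) (hε : 0 < ε) : ∃ (C : ℝ) (A : ℕ), 0 < C ∧ ∀ (K : ℕ) (y D : ℝ) (ψ : ℕ → ℂ)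
    (φ : ℝ → ℂ), 1 ≤ K → 1 / 2 ≤ y → (∀ m, ‖ψ m‖ ≤ 1) → (∀ m, ψ (m + 8) = ψ m) →
    ContDiff ℝ ((⊤ : ℕ∞) : WithTop ℕ∞) φ → (∀ u, φ u ≠ 0 → 1 / 2 ≤ u ∧ u ≤ 2) →
    (∀ j ≤ A, ∀ u, ‖iteratedDeriv j φ u‖ ≤ D) →
    ∑ κ ∈ (osf K).filter (fun κ => 1 < κ),
        ‖∑' m : ℕ, if Odd m then ψ m * (js m κ : ℂ) * φ (m / y) else 0‖ ^ 4 ≤
      C * D ^ 4 * ((K : ℝ) * y) ^ ε * (K * y ^ 2) :=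
  NMq 2 (by norm_num) hLS4 Pool.Agent.H375R3.RZ5.PO ε hε

end

end Pool.Agent.H116R2.RZ5NM
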