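import Pool.Agent.H306R2.RZ.Defs5

set_option autoImplicit false

/-!
Moments (exponent `2 q`) of smooth dyadic sums, part 1 : the dual side.
-/

namespace Pool.Agent.H116R2.RZ5NM

open Finset Filter Topology MeasureTheory Pool.Agent.H306R2.RZ

noncomputable section

/-- large sieve hypothesis with exponent `2 q` -/
def LSq (q : ℕ) : Prop := ∀ ε : ℝ, 0 < ε → ∃ C : ℝ, 0 < C ∧ ∀ (K H : ℕ) (c : ℕ → ℂ),
    1 ≤ K → 1 ≤ H → (∀ h, ‖c h‖ ≤ 1) →
    ∑ κ ∈ osf K, ‖∑ h ∈ Icc 1 H, c h * (js h κ : ℂ)‖ ^ (2 * q) ≤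
      C * ((K : ℝ) * H) ^ ε * ((K : ℝ) + (H : ℝ) ^ 2) * (H : ℝ) ^ q

/-- the homogeneous version -/
theorem LSq_hom (q : ℕ) (hq : 1 ≤ q) (h : LSq q) (ε : ℝ) (hε : 0 < ε) : ∃ C : ℝ, 0 < C ∧
    ∀ (K H : ℕ) (c : ℕ → ℂ) (D : ℝ), 1 ≤ K → 1 ≤ H → (∀ h, ‖c h‖ ≤ D) →
    ∑ κ ∈ osf K, ‖∑ h ∈ Icc 1 H, c h * (js h κ : ℂ)‖ ^ (2 * q) ≤
      C * D ^ (2 * q) * ((K : ℝ) * H) ^ ε * ((K : ℝ) + (H : ℝ) ^ 2) * (H : ℝ) ^ q := by
  obtain ⟨C, hC, hh⟩ := h ε hε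
  refine ⟨C, hC, fun K H c D hK hH hc => ?_⟩
  have hD0 : 0 ≤ D := (norm_nonneg _).trans (hc 0)
  rcases hD0.eq_or_lt with hD | hD
  · subst hD
    have hc0 : ∀ h, c h = 0 := fun h => norm_le_zero_iff.mp (hc h)
    have h2q : 2 * q ≠ 0 := by omega
    simp [hc0, zero_pow h2q]
  · have h1 := hh K H (fun h => c h / D) hK hH (fun h => by
      rw [norm_div, Complex.norm_real, Real.norm_of_nonneg hD.le, div_le_one hD]
      exact hc h)
    have h2 : ∀ κ, ‖∑ h ∈ Icc 1 H, c h * (js h κ : ℂ)‖ ^ (2 * q) =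
        D ^ (2 * q) * ‖∑ h ∈ Icc 1 H, c h / D * (js h κ : ℂ)‖ ^ (2 * q) := by
      intro κ
      have : ∑ h ∈ Icc 1 H, c h * (js h κ : ℂ) = D * ∑ h ∈ Icc 1 H, c h / D * (js h κ : ℂ) := by
        rw [Finset.mul_sum]
        refine Finset.sum_congr rfl fun h _ => ?_
        have : (D : ℂ) ≠ 0 := by exact_mod_cast hD.ne'
        field_simp
      rw [this, norm_mul, mul_pow, Complex.norm_real, Real.norm_of_nonneg hD.le]
    rw [Finset.sum_congr rfl (fun κ _ => h2 κ), ← Finset.mul_sum]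
    calc D ^ (2 * q) * ∑ κ ∈ osf K, ‖∑ h ∈ Icc 1 H, c h / D * (js h κ : ℂ)‖ ^ (2 * q) ≤
        D ^ (2 * q) * (C * ((K : ℝ) * H) ^ ε * ((K : ℝ) + (H : ℝ) ^ 2) * (H : ℝ) ^ q) :=
          mul_le_mul_of_nonneg_left h1 (by positivity)
      _ = _ := by ring

/-- `ĝ(x) = ∫ g(u) exp(-2π i x u) du` -/
def FT (g : ℝ → ℂ) (x : ℝ) : ℂ :=
  ∫ u : ℝ, g u * Complex.exp (-(2 * Real.pi * Complex.I * (x : ℝ) * u))

theorem FT_scale (g : ℝ → ℂ) (hs : ∀ u, g u ≠ 0 → 1 / 2 ≤ u ∧ u ≤ 2) (x r : ℝ) (hr : 1 ≤ r) :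
    FT g x = (r : ℂ) * ∫ v in (0 : ℝ)..2, g (r * v) *
      Complex.exp (-(2 * Real.pi * Complex.I * ((x * r : ℝ) : ℂ) * v)) := by
  have hr0 : 0 < r := by linarith
  have h1 := MeasureTheory.Measure.integral_comp_mul_left
    (fun u : ℝ => g u * Complex.exp (-(2 * Real.pi * Complex.I * (x : ℝ) * u))) r
  have h2 : FT g x = (r : ℂ) * ∫ v : ℝ, g (r * v) *
      Complex.exp (-(2 * Real.pi * Complex.I * ((x * r : ℝ) : ℂ) * v)) := by
    have h3 : (∫ v : ℝ, g (r * v) *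
      Complex.exp (-(2 * Real.pi * Complex.I * ((x * r : ℝ) : ℂ) * v))) =
      ∫ v : ℝ, g (r * v) * Complex.exp (-(2 * Real.pi * Complex.I * (x : ℝ) * ((r * v : ℝ) : ℂ))) := by
      refine integral_congr_ae (ae_of_all _ fun v => ?_)
      dsimp only
      congr 2
      push_cast
      ring
    rw [h3, h1, FT, abs_of_pos (by positivity)]
    rw [Complex.real_smul]
    have : (r : ℂ) ≠ 0 := by exact_mod_cast hr0.ne'
    push_cast
    field_simp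
  rw [h2, intervalIntegral.integral_of_le (by norm_num)]
  congr 1
  symm
  refine setIntegral_eq_integral_of_forall_compl_eq_zero fun v hv => ?_
  have : g (r * v) = 0 := by
    by_contra h
    obtain ⟨h4, h5⟩ := hs _ h
    apply hv
    refine ⟨?_, ?_⟩
    · by_contra h6
      push Not at h6
      have : r * v ≤ 0 := mul_nonpos_of_nonneg_of_nonpos hr0.le h6
      linarith
    · by_contra h6
      push Not at h6
      nlinarith
  rw [this, zero_mul]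

/-- Jensen for powers on `[0,2]` -/
theorem jensen_pow (n : ℕ) (f : ℝ → ℝ) (hf : Continuous f) (hf0 : ∀ v, 0 ≤ f v) :
    (∫ v in (0 : ℝ)..2, f v) ^ (n + 1) ≤ 2 ^ n * ∫ v in (0 : ℝ)..2, f v ^ (n + 1) := by
  have h1 : (⨍ v in Set.Ioc (0 : ℝ) 2, f v) ^ (n + 1) ≤ ⨍ v in Set.Ioc (0 : ℝ) 2, f v ^ (n + 1) := by
    have := (convexOn_pow (𝕜 := ℝ) (n + 1)).map_set_average_le (s := Set.Ici 0)
      (t := Set.Ioc (0 : ℝ) 2) (μ := volume) (f := f) (g := fun x => x ^ (n + 1))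
      (continuous_pow _).continuousOn isClosed_Ici (by simp) (by simp)
      (ae_of_all _ fun v => hf0 v)
      ((hf.integrableOn_Icc (a := 0) (b := 2)).mono_set Set.Ioc_subset_Icc_self)
      (((hf.pow (n + 1)).integrableOn_Icc (a := 0) (b := 2)).mono_set Set.Ioc_subset_Icc_self)
    exact this
  rw [setAverage_eq, setAverage_eq] at h1
  simp only [measureReal_def, Real.volume_Ioc] at h1
  rw [intervalIntegral.integral_of_le (by norm_num), intervalIntegral.integral_of_le (by norm_num)]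
  norm_num at h1
  rw [mul_pow] at h1
  have h2 : (0 : ℝ) < 2 ^ (n + 1) := by positivity
  have h3 := mul_le_mul_of_nonneg_left h1 h2.le
  calc _ = 2 ^ (n + 1) * ((1 / 2) ^ (n + 1) * (∫ v in Set.Ioc (0 : ℝ) 2, f v) ^ (n + 1)) := by
        rw [← mul_assoc, ← mul_pow]; norm_num
    _ ≤ 2 ^ (n + 1) * (1 / 2 * ∫ v in Set.Ioc (0 : ℝ) 2, f v ^ (n + 1)) := h3
    _ = _ := by ring

end

end Pool.Agent.H116R2.RZ5NM
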