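import Pool.Agent.H116R2.RZ5_NM_A

set_option autoImplicit false

/-!
Moments (exponent `2 q`) of smooth dyadic sums, part 2 : blocks on the dual side.
-/

namespace Pool.Agent.H116R2.RZ5NM

open Finset Filter Topology MeasureTheory Pool.Agent.H306R2.RZ

noncomputable section

/-- the exponential factor -/
def EE (z : ℝ) (h : ℕ) (v : ℝ) : ℂ := Complex.exp (-(2 * Real.pi * Complex.I * ((z * h : ℝ) : ℂ) * v))

theorem EE_norm (z : ℝ) (h : ℕ) (v : ℝ) : ‖EE z h v‖ = 1 := by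
  unfold EE
  rw [Complex.norm_exp]
  simp [Complex.mul_re, Complex.mul_im]

theorem EE_cont (z : ℝ) (h : ℕ) : Continuous (EE z h) := by
  unfold EE
  fun_prop

/-- the block moment on `[0,2]` for fixed `v` -/
theorem blkP (q : ℕ) (hq : 1 ≤ q) (hL : LSq q) (ε : ℝ) (hε : 0 < ε) : ∃ C : ℝ, 0 < C ∧
    ∀ (N H : ℕ) (z v : ℝ) (c : ℕ → ℂ), 1 ≤ N → 1 ≤ H → (∀ h, ‖c h‖ ≤ 1) →
    ∑ κ ∈ (osf (2 * N)).filter (fun κ => N ≤ κ),
        ‖∑ h ∈ Ico H (2 * H), c h * (js h κ : ℂ) * EE z h v‖ ^ (2 * q) ≤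
      C * ((N : ℝ) * H) ^ ε * ((N : ℝ) + (H : ℝ) ^ 2) * (H : ℝ) ^ q := by
  obtain ⟨C, hC, hh⟩ := hL ε hε
  refine ⟨C * 4 ^ ε * 4 * 2 ^ q, by positivity, fun N H z v c hN hH hc => ?_⟩
  have h1 := hh (2 * N) (2 * H) (fun h => if h ∈ Ico H (2 * H) then c h * EE z h v else 0)
    (by omega) (by omega) (fun h => by
      split_ifs
      · rw [norm_mul, EE_norm, mul_one]; exact hc h
      · simp)
  have h2 : ∀ κ, ∑ h ∈ Icc 1 (2 * H), (if h ∈ Ico H (2 * H) then c h * EE z h v else 0) *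
      (js h κ : ℂ) = ∑ h ∈ Ico H (2 * H), c h * (js h κ : ℂ) * EE z h v := by
    intro κ
    have hsub : Ico H (2 * H) ⊆ Icc 1 (2 * H) := fun h hh => by
      rw [mem_Ico] at hh; rw [mem_Icc]; omega
    rw [← Finset.sum_subset hsub (fun h _ hn => by rw [if_neg hn, zero_mul])]
    refine Finset.sum_congr rfl fun h hh => ?_
    rw [if_pos hh]
    ring
  simp only [h2] at h1
  refine (Finset.sum_le_sum_of_subset_of_nonneg (Finset.filter_subset _ _)
    (fun κ _ _ => by positivity)).trans (h1.trans ?_)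
  push_cast
  have hN0 : (1 : ℝ) ≤ N := by exact_mod_cast hN
  have hH0 : (1 : ℝ) ≤ H := by exact_mod_cast hH
  have e1 : (2 * (N : ℝ) * (2 * H)) ^ ε = 4 ^ ε * ((N : ℝ) * H) ^ ε := by
    rw [← Real.mul_rpow (by norm_num) (by positivity)]
    congr 1
    ring
  rw [e1, mul_pow, mul_pow]
  have e2 : (2 * (N : ℝ) + 2 ^ 2 * (H : ℝ) ^ 2) ≤ 4 * ((N : ℝ) + (H : ℝ) ^ 2) := by
    nlinarith
  calc C * (4 ^ ε * ((N : ℝ) * H) ^ ε) * (2 * (N : ℝ) + 2 ^ 2 * (H : ℝ) ^ 2) * (2 ^ q * (H : ℝ) ^ q) ≤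
      C * (4 ^ ε * ((N : ℝ) * H) ^ ε) * (4 * ((N : ℝ) + (H : ℝ) ^ 2)) * (2 ^ q * (H : ℝ) ^ q) := by
        gcongr
    _ = _ := by ring

theorem INT (q : ℕ) (hq : 1 ≤ q) (hL : LSq q) (ε : ℝ) (hε : 0 < ε) : ∃ C : ℝ, 0 < C ∧
    ∀ (N H : ℕ) (y σ D : ℝ) (c : ℕ → ℂ) (g : ℝ → ℂ), 1 ≤ N → 1 ≤ H → (∀ h, ‖c h‖ ≤ 1) →
    Continuous g → (∀ u, g u ≠ 0 → 1 / 2 ≤ u ∧ u ≤ 2) → (∀ u, ‖g u‖ ≤ D) →
    ∑ κ ∈ (osf (2 * N)).filter (fun κ => N ≤ κ),
        ‖∑ h ∈ Ico H (2 * H), c h * (js h κ : ℂ) * FT g (σ * h * y / (8 * κ))‖ ^ (2 * q) ≤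
      C * D ^ (2 * q) * ((N : ℝ) * H) ^ ε * ((N : ℝ) + (H : ℝ) ^ 2) * (H : ℝ) ^ q := by
  obtain ⟨C, hC, hh⟩ := blkP q hq hL ε hε
  obtain ⟨n, hn⟩ : ∃ n, 2 * q = n + 1 := ⟨2 * q - 1, by omega⟩
  refine ⟨2 ^ (2 * q) * 2 ^ n * 2 * C, by positivity, fun N H y σ D c g hN hH hc hg hs hD => ?_⟩
  have hN0 : (1 : ℝ) ≤ N := by exact_mod_cast hN
  have hD0 : 0 ≤ D := (norm_nonneg _).trans (hD 0)
  set z : ℝ := σ * y / (8 * N) with hz
  have hPc : ∀ κ, Continuous (fun v => ∑ h ∈ Ico H (2 * H), c h * (js h κ : ℂ) * EE z h v) := by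
    intro κ
    refine continuous_finsetSum _ fun h _ => ?_
    exact continuous_const.mul (EE_cont z h)
  have key : ∀ κ ∈ (osf (2 * N)).filter (fun κ => N ≤ κ),
      ‖∑ h ∈ Ico H (2 * H), c h * (js h κ : ℂ) * FT g (σ * h * y / (8 * κ))‖ ^ (2 * q) ≤
        2 ^ (2 * q) * D ^ (2 * q) * (2 ^ n * ∫ v in (0 : ℝ)..2,
          ‖∑ h ∈ Ico H (2 * H), c h * (js h κ : ℂ) * EE z h v‖ ^ (2 * q)) := by
    intro κ hκ
    rw [mem_filter, osf, mem_filter, mem_Icc] at hκ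
    obtain ⟨⟨⟨hκ1, hκ2⟩, -⟩, hκ3⟩ := hκ
    have hκN : (N : ℝ) ≤ κ := by exact_mod_cast hκ3
    have hκ2N : (κ : ℝ) ≤ 2 * N := by exact_mod_cast hκ2
    have hκ0 : (0 : ℝ) < κ := by linarith
    set r : ℝ := κ / N with hr
    have hr1 : 1 ≤ r := by rw [hr, le_div_iff₀ (by linarith)]; linarith
    have hr2 : r ≤ 2 := by rw [hr, div_le_iff₀ (by linarith)]; linarith
    have e1 : ∀ h : ℕ, FT g (σ * h * y / (8 * κ)) =
        (r : ℂ) * ∫ v in (0 : ℝ)..2, g (r * v) * EE z h v := by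
      intro h
      rw [FT_scale g hs _ r hr1]
      congr 1
      refine intervalIntegral.integral_congr fun v _ => ?_
      dsimp only [EE]
      congr 5
      rw [hz, hr]
      have hκc : (κ : ℂ) ≠ 0 := by exact_mod_cast hκ0.ne'
      have hNc : (N : ℂ) ≠ 0 := by exact_mod_cast (by linarith : (0 : ℝ) < N).ne'
      push_cast
      field_simp
    have hgr : Continuous (fun v : ℝ => g (r * v)) := hg.comp (continuous_const.mul continuous_id)
    have e2 : ∑ h ∈ Ico H (2 * H), c h * (js h κ : ℂ) * FT g (σ * h * y / (8 * κ)) =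
        (r : ℂ) * ∫ v in (0 : ℝ)..2, g (r * v) *
          ∑ h ∈ Ico H (2 * H), c h * (js h κ : ℂ) * EE z h v := by
      simp_rw [Finset.mul_sum]
      rw [intervalIntegral.integral_finsetSum]
      · rw [Finset.mul_sum]
        refine Finset.sum_congr rfl fun h _ => ?_
        rw [e1, ← mul_assoc, mul_comm (c h * (js h κ : ℂ)) (r : ℂ), mul_assoc,
          ← intervalIntegral.integral_const_mul]
        congr 1
        refine intervalIntegral.integral_congr fun v _ => ?_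
        ring
      · intro h _
        exact (hgr.mul (continuous_const.mul (EE_cont z h))).intervalIntegrable _ _
    have e3 : ‖∑ h ∈ Ico H (2 * H), c h * (js h κ : ℂ) * FT g (σ * h * y / (8 * κ))‖ ≤
        2 * D * ∫ v in (0 : ℝ)..2, ‖∑ h ∈ Ico H (2 * H), c h * (js h κ : ℂ) * EE z h v‖ := by
      rw [e2, norm_mul, Complex.norm_real, Real.norm_of_nonneg (by linarith)]
      have : ‖∫ v in (0 : ℝ)..2, g (r * v) *
          ∑ h ∈ Ico H (2 * H), c h * (js h κ : ℂ) * EE z h v‖ ≤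
          ∫ v in (0 : ℝ)..2, D * ‖∑ h ∈ Ico H (2 * H), c h * (js h κ : ℂ) * EE z h v‖ := by
        refine intervalIntegral.norm_integral_le_of_norm_le (by norm_num)
          (ae_of_all _ fun v _ => ?_) ?_
        · rw [norm_mul]
          exact mul_le_mul_of_nonneg_right (hD _) (norm_nonneg _)
        · exact (continuous_const.mul (hPc κ).norm).intervalIntegrable _ _
      rw [intervalIntegral.integral_const_mul] at this
      calc r * _ ≤ 2 * (D * ∫ v in (0 : ℝ)..2,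
            ‖∑ h ∈ Ico H (2 * H), c h * (js h κ : ℂ) * EE z h v‖) := by
            refine mul_le_mul hr2 this (norm_nonneg _) (by norm_num)
        _ = _ := by ring
    calc _ ≤ (2 * D * ∫ v in (0 : ℝ)..2,
          ‖∑ h ∈ Ico H (2 * H), c h * (js h κ : ℂ) * EE z h v‖) ^ (2 * q) :=
          pow_le_pow_left₀ (norm_nonneg _) e3 _
      _ = 2 ^ (2 * q) * D ^ (2 * q) * (∫ v in (0 : ℝ)..2,
          ‖∑ h ∈ Ico H (2 * H), c h * (js h κ : ℂ) * EE z h v‖) ^ (2 * q) := by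
          rw [mul_pow, mul_pow]
      _ ≤ _ := by
          refine mul_le_mul_of_nonneg_left ?_ (by positivity)
          rw [hn]
          exact jensen_pow n _ (hPc κ).norm (fun v => norm_nonneg _)
  refine (Finset.sum_le_sum key).trans ?_
  rw [← Finset.mul_sum, ← Finset.mul_sum, ← intervalIntegral.integral_finsetSum
    (fun κ _ => Continuous.intervalIntegrable (by exact (hPc κ).norm.pow (2 * q)) _ _)]
  have h5 : (∫ v in (0 : ℝ)..2, ∑ κ ∈ (osf (2 * N)).filter (fun κ => N ≤ κ),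
      ‖∑ h ∈ Ico H (2 * H), c h * (js h κ : ℂ) * EE z h v‖ ^ (2 * q)) ≤
      ∫ v in (0 : ℝ)..2, C * ((N : ℝ) * H) ^ ε * ((N : ℝ) + (H : ℝ) ^ 2) * (H : ℝ) ^ q := by
    refine intervalIntegral.integral_mono_on (by norm_num) ?_ ?_ ?_
    · exact (continuous_finsetSum _ fun κ _ => (hPc κ).norm.pow _).intervalIntegrable _ _
    · exact continuous_const.intervalIntegrable _ _
    · intro v _
      exact hh N H z v c hN hH hc
  rw [intervalIntegral.integral_const, smul_eq_mul] at h5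
  calc 2 ^ (2 * q) * D ^ (2 * q) * (2 ^ n * ∫ v in (0 : ℝ)..2,
      ∑ κ ∈ (osf (2 * N)).filter (fun κ => N ≤ κ),
        ‖∑ h ∈ Ico H (2 * H), c h * (js h κ : ℂ) * EE z h v‖ ^ (2 * q)) ≤
      2 ^ (2 * q) * D ^ (2 * q) * (2 ^ n * ((2 - 0) *
        (C * ((N : ℝ) * H) ^ ε * ((N : ℝ) + (H : ℝ) ^ 2) * (H : ℝ) ^ q))) := by gcongr
    _ = _ := by ring

end

end Pool.Agent.H116R2.RZ5NM
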