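import Pool.Agent.H116R2.RZ5_NM_B

set_option autoImplicit false

/-!
Moments (exponent `2 q`) of smooth dyadic sums, part 3 : integration by parts.
-/

namespace Pool.Agent.H116R2.RZ5NM

open Finset Filter Topology MeasureTheory Pool.Agent.H306R2.RZ

noncomputable section

theorem supp_iter (φ : ℝ → ℂ) (hs : ∀ u, φ u ≠ 0 → 1 / 2 ≤ u ∧ u ≤ 2) (n : ℕ) (u : ℝ)
    (hu : iteratedDeriv n φ u ≠ 0) : 1 / 2 ≤ u ∧ u ≤ 2 := by
  by_contra hcon
  apply hu
  have hu1 : u ∈ (Set.Icc (1 / 2 : ℝ) 2)ᶜ := fun h => hcon ⟨h.1, h.2⟩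
  have h1 : φ =ᶠ[𝓝 u] (fun _ => (0 : ℂ)) := by
    filter_upwards [isClosed_Icc.isOpen_compl.mem_nhds hu1] with v hv
    by_contra h2
    exact hv (hs v h2)
  rw [h1.iteratedDeriv_eq n]
  simp [iteratedDeriv_const]

theorem cont_iter (φ : ℝ → ℂ) (hφ : ContDiff ℝ ((⊤ : ℕ∞) : WithTop ℕ∞) φ) (n : ℕ) :
    Continuous (iteratedDeriv n φ) :=
  hφ.continuous_iteratedDeriv n (by exact_mod_cast le_top)

theorem iter_int (φ : ℝ → ℂ) (hφ : ContDiff ℝ ((⊤ : ℕ∞) : WithTop ℕ∞) φ)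
    (hs : ∀ u, φ u ≠ 0 → 1 / 2 ≤ u ∧ u ≤ 2) (n : ℕ) : Integrable (iteratedDeriv n φ) := by
  refine Continuous.integrable_of_hasCompactSupport ?_ ?_
  · exact hφ.continuous_iteratedDeriv n (by exact_mod_cast le_top)
  · refine HasCompactSupport.intro (K := Set.Icc (1 / 2 : ℝ) 2) isCompact_Icc fun u hu => ?_
    by_contra h
    exact hu (supp_iter φ hs n u h)

theorem FT_ibp (φ : ℝ → ℂ) (hφ : ContDiff ℝ ((⊤ : ℕ∞) : WithTop ℕ∞) φ)
    (hs : ∀ u, φ u ≠ 0 → 1 / 2 ≤ u ∧ u ≤ 2) (n : ℕ) (x : ℝ) :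
    FT (iteratedDeriv n φ) x = (2 * Real.pi * Complex.I * x) ^ n * FT φ x := by
  have h1 := Real.fourier_iteratedDeriv (f := φ) (N := ⊤) (n := n) hφ
    (fun m _ => iter_int φ hφ hs m) le_top
  have h2 : ∀ f : ℝ → ℂ, FT f x = FourierTransform.fourier f x := by
    intro f
    rw [Real.fourier_real_eq_integral_exp_smul, FT]
    refine integral_congr_ae (ae_of_all _ fun u => ?_)
    dsimp only
    rw [smul_eq_mul, mul_comm]
    congr 2
    push_cast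
    ring
  rw [h2, h2, h1]
  simp [smul_eq_mul]

theorem BLK (q : ℕ) (hq : 1 ≤ q) (hL : LSq q) (ε : ℝ) (hε : 0 < ε) : ∃ C : ℝ, 0 < C ∧
    ∀ (N H : ℕ) (y σ D : ℝ) (c : ℕ → ℂ) (φ : ℝ → ℂ), 1 ≤ N → 1 ≤ H → 0 < y → σ ^ 2 = 1 →
    (∀ h, ‖c h‖ ≤ 1) →
    ContDiff ℝ ((⊤ : ℕ∞) : WithTop ℕ∞) φ → (∀ u, φ u ≠ 0 → 1 / 2 ≤ u ∧ u ≤ 2) →
    (∀ j ≤ 2, ∀ u, ‖iteratedDeriv j φ u‖ ≤ D) →
    ∑ κ ∈ (osf (2 * N)).filter (fun κ => N ≤ κ),
        ‖∑ h ∈ Ico H (2 * H), c h * (js h κ : ℂ) * FT φ (σ * h * y / (8 * κ))‖ ^ (2 * q) ≤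
      C * D ^ (2 * q) * ((N : ℝ) * H) ^ ε * ((N : ℝ) + (H : ℝ) ^ 2) * (H : ℝ) ^ q *
        (min 1 (N / (H * y))) ^ (4 * q) := by
  obtain ⟨C, hC, hh⟩ := INT q hq hL ε hε
  refine ⟨9 ^ (2 * q) * C, by positivity, fun N H y σ D c φ hN hH hy hσ hc hφ hs hD => ?_⟩
  have hN0 : (1 : ℝ) ≤ N := by exact_mod_cast hN
  have hH0 : (1 : ℝ) ≤ H := by exact_mod_cast hH
  have hD0 : 0 ≤ D := (norm_nonneg _).trans (hD 0 (by norm_num) 0)
  rcases min_choice (1 : ℝ) (N / (H * y)) with hm | hm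
  · rw [hm, one_pow, mul_one]
    refine (hh N H y σ D c φ hN hH hc hφ.continuous hs
      (fun u => by simpa using hD 0 (by norm_num) u)).trans ?_
    have h9 : (1 : ℝ) ≤ 9 ^ (2 * q) := one_le_pow₀ (by norm_num)
    have : C ≤ 9 ^ (2 * q) * C := le_mul_of_one_le_left hC.le h9
    gcongr
  · rw [hm]
    set c' : ℕ → ℂ := fun h => if h ∈ Ico H (2 * H) then c h * ((((H : ℝ) / h) ^ 2 : ℝ) : ℂ) else 0
      with hc'
    have hc'1 : ∀ h, ‖c' h‖ ≤ 1 := by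
      intro h
      simp only [hc']
      split_ifs with h1
      · rw [mem_Ico] at h1
        have h2 : (H : ℝ) ≤ h := by exact_mod_cast h1.1
        have h3 : (H : ℝ) / h ≤ 1 := by rw [div_le_one (by linarith)]; exact h2
        rw [norm_mul, Complex.norm_real, Real.norm_of_nonneg (by positivity)]
        exact mul_le_one₀ (hc h) (by positivity) (pow_le_one₀ (by positivity) h3)
      · simp
    have h1 := hh N H y σ D c' (iteratedDeriv 2 φ) hN hH hc'1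
      (cont_iter φ hφ 2) (supp_iter φ hs 2)
      (fun u => hD 2 le_rfl u)
    have key : ∀ κ ∈ (osf (2 * N)).filter (fun κ => N ≤ κ),
        ‖∑ h ∈ Ico H (2 * H), c h * (js h κ : ℂ) * FT φ (σ * h * y / (8 * κ))‖ ^ (2 * q) ≤
        9 ^ (2 * q) * (N / (H * y)) ^ (4 * q) *
        ‖∑ h ∈ Ico H (2 * H), c' h * (js h κ : ℂ) *
          FT (iteratedDeriv 2 φ) (σ * h * y / (8 * κ))‖ ^ (2 * q) := by
      intro κ hκ
      rw [mem_filter, osf, mem_filter, mem_Icc] at hκ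
      obtain ⟨⟨⟨hκ1, hκ2⟩, -⟩, hκ3⟩ := hκ
      have hκN : (N : ℝ) ≤ κ := by exact_mod_cast hκ3
      have hκ2N : (κ : ℝ) ≤ 2 * N := by exact_mod_cast hκ2
      have hκ0 : (0 : ℝ) < κ := by linarith
      have e1 : ∑ h ∈ Ico H (2 * H), c h * (js h κ : ℂ) * FT φ (σ * h * y / (8 * κ)) =
          ((-((4 * κ / (Real.pi * N)) ^ 2 * (N / (H * y)) ^ 2) : ℝ) : ℂ) *
          ∑ h ∈ Ico H (2 * H), c' h * (js h κ : ℂ) *
            FT (iteratedDeriv 2 φ) (σ * h * y / (8 * κ)) := by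
        rw [Finset.mul_sum]
        refine Finset.sum_congr rfl fun h hh => ?_
        have h2 : c' h = c h * ((((H : ℝ) / h) ^ 2 : ℝ) : ℂ) := by
          simp only [hc', if_pos hh]
        rw [mem_Ico] at hh
        have hh0 : (0 : ℝ) < h := by exact_mod_cast (by omega : 0 < h)
        rw [h2, FT_ibp φ hφ hs]
        have hκc : (κ : ℂ) ≠ 0 := by exact_mod_cast hκ0.ne'
        have hNc : (N : ℂ) ≠ 0 := by exact_mod_cast (by linarith : (0 : ℝ) < N).ne'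
        have hHc : (H : ℂ) ≠ 0 := by exact_mod_cast (by linarith : (0 : ℝ) < H).ne'
        have hhc : (h : ℂ) ≠ 0 := by exact_mod_cast hh0.ne'
        have hyc : (y : ℂ) ≠ 0 := by exact_mod_cast hy.ne'
        have hπ : (Real.pi : ℂ) ≠ 0 := by exact_mod_cast Real.pi_ne_zero
        have hσc : (σ : ℂ) ^ 2 = 1 := by exact_mod_cast hσ
        have hI : Complex.I ^ 2 = -1 := Complex.I_sq
        have e2 : ((-((4 * κ / (Real.pi * N)) ^ 2 * (N / (H * y)) ^ 2) : ℝ) : ℂ) *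
            ((((H : ℝ) / h) ^ 2 : ℝ) : ℂ) *
            (2 * Real.pi * Complex.I * ((σ * h * y / (8 * κ) : ℝ) : ℂ)) ^ 2 = 1 := by
          have : ((-((4 * κ / (Real.pi * N)) ^ 2 * (N / (H * y)) ^ 2) : ℝ) : ℂ) *
            ((((H : ℝ) / h) ^ 2 : ℝ) : ℂ) *
            (2 * Real.pi * Complex.I * ((σ * h * y / (8 * κ) : ℝ) : ℂ)) ^ 2 =
            - Complex.I ^ 2 * (σ : ℂ) ^ 2 := by
            push_cast
            field_simp
            ring
          rw [this, hσc, hI]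
          norm_num
        calc c h * (js h κ : ℂ) * FT φ (σ * h * y / (8 * κ)) =
            1 * (c h * (js h κ : ℂ) * FT φ (σ * h * y / (8 * κ))) := by rw [one_mul]
          _ = _ := by rw [← e2]; ring
      rw [e1, norm_mul, mul_pow, Complex.norm_real, norm_neg, Real.norm_of_nonneg (by positivity)]
      refine mul_le_mul_of_nonneg_right ?_ (by positivity)
      rw [mul_pow, ← pow_mul (N / ((H : ℝ) * y)), show 2 * (2 * q) = 4 * q by ring]
      refine mul_le_mul_of_nonneg_right ?_ (by positivity)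
      refine pow_le_pow_left₀ (by positivity) ?_ _
      have h4 : 4 * (κ : ℝ) / (Real.pi * N) ≤ 3 := by
        rw [div_le_iff₀ (by positivity)]
        nlinarith [Real.pi_gt_three]
      calc (4 * (κ : ℝ) / (Real.pi * N)) ^ 2 ≤ 3 ^ 2 := pow_le_pow_left₀ (by positivity) h4 _
        _ = 9 := by norm_num
    refine (Finset.sum_le_sum key).trans ?_
    rw [← Finset.mul_sum]
    refine (mul_le_mul_of_nonneg_left h1 (by positivity)).trans (le_of_eq ?_)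
    ring

end

end Pool.Agent.H116R2.RZ5NM
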