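import Pool.Agent.H116R2.RZ5_NM_C

set_option autoImplicit false

/-!
Moments (exponent `2 q`) of smooth dyadic sums, part 4 : the dual sum.
-/

namespace Pool.Agent.H116R2.RZ5NM

open Finset Filter Topology MeasureTheory Pool.Agent.H306R2.RZ

noncomputable section

/-- terms of the dual sum -/
def aa (γ : ℤ → ℕ → ℂ) (φ : ℝ → ℂ) (y : ℝ) (κ : ℕ) (h : ℤ) : ℂ :=
  (js h κ : ℂ) * γ h κ * FT φ (h * y / (8 * κ))

theorem js_abs_le (a : ℤ) (b : ℕ) : |js a b| ≤ 1 := by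
  unfold js
  rcases jacobiSym.trichotomy a b with h | h | h <;> simp [h]

theorem js_mul (a b : ℤ) (n : ℕ) : js (a * b) n = js a n * js b n := by
  unfold js
  rw [jacobiSym.mul_left]
  push_cast
  ring

theorem D1 (q : ℕ) (hq : 1 ≤ q) (hL : LSq q) (ε : ℝ) (hε : 0 < ε) : ∃ C : ℝ, 0 < C ∧
    ∀ (N H : ℕ) (y D : ℝ) (σ : ℤ) (γ : ℤ → ℕ → ℂ) (φ : ℝ → ℂ), 1 ≤ N → 1 ≤ H → 0 < y → σ ^ 2 = 1 →
    (∀ h κ, ‖γ h κ‖ ≤ 1) → (∀ h κ, γ h (κ + 8) = γ h κ) →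
    ContDiff ℝ ((⊤ : ℕ∞) : WithTop ℕ∞) φ → (∀ u, φ u ≠ 0 → 1 / 2 ≤ u ∧ u ≤ 2) →
    (∀ j ≤ 2, ∀ u, ‖iteratedDeriv j φ u‖ ≤ D) →
    ∑ κ ∈ (osf (2 * N)).filter (fun κ => N ≤ κ),
        ‖∑ h ∈ Ico H (2 * H), aa γ φ y κ (σ * h)‖ ^ (2 * q) ≤
      C * D ^ (2 * q) * ((N : ℝ) * H) ^ ε * ((N : ℝ) + (H : ℝ) ^ 2) * (H : ℝ) ^ q *
        (min 1 (N / (H * y))) ^ (4 * q) := by
  obtain ⟨C, hC, hh⟩ := BLK q hq hL ε hε
  refine ⟨8 * C, by positivity, fun N H y D σ γ φ hN hH hy hσ hγ hγ8 hφ hs hD => ?_⟩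
  have hper : ∀ h κ, γ h (κ % 8) = γ h κ := by
    intro h κ
    have : Function.Periodic (γ h) 8 := fun κ => hγ8 h κ
    exact this.map_mod_nat κ
  have h1 : ∀ κ ∈ (osf (2 * N)).filter (fun κ => N ≤ κ),
      ‖∑ h ∈ Ico H (2 * H), aa γ φ y κ (σ * h)‖ ^ (2 * q) ≤
      ∑ a ∈ range 8, ‖∑ h ∈ Ico H (2 * H), γ (σ * h) a * (js h κ : ℂ) *
        FT φ ((σ : ℝ) * h * y / (8 * κ))‖ ^ (2 * q) := by
    intro κ _
    have h2 : ‖∑ h ∈ Ico H (2 * H), aa γ φ y κ (σ * h)‖ ≤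
        ‖∑ h ∈ Ico H (2 * H), γ (σ * h) (κ % 8) * (js h κ : ℂ) *
        FT φ ((σ : ℝ) * h * y / (8 * κ))‖ := by
      have h3 : ∑ h ∈ Ico H (2 * H), aa γ φ y κ (σ * h) = (js σ κ : ℂ) *
          ∑ h ∈ Ico H (2 * H), γ (σ * h) (κ % 8) * (js h κ : ℂ) *
        FT φ ((σ : ℝ) * h * y / (8 * κ)) := by
        rw [Finset.mul_sum]
        refine Finset.sum_congr rfl fun h _ => ?_
        rw [aa, js_mul, hper]
        push_cast
        ring
      rw [h3, norm_mul, Complex.norm_real, Real.norm_eq_abs]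
      exact mul_le_of_le_one_left (norm_nonneg _) (js_abs_le _ _)
    refine (pow_le_pow_left₀ (norm_nonneg _) h2 _).trans ?_
    exact Finset.single_le_sum (f := fun a => ‖∑ h ∈ Ico H (2 * H), γ (σ * h) a * (js h κ : ℂ) *
        FT φ ((σ : ℝ) * h * y / (8 * κ))‖ ^ (2 * q)) (fun a _ => by positivity)
        (mem_range.mpr (Nat.mod_lt κ (by norm_num)))
  refine (Finset.sum_le_sum h1).trans ?_
  rw [Finset.sum_comm]
  have h4 : ∀ a ∈ range 8, ∑ κ ∈ (osf (2 * N)).filter (fun κ => N ≤ κ),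
      ‖∑ h ∈ Ico H (2 * H), γ (σ * h) a * (js h κ : ℂ) *
        FT φ ((σ : ℝ) * h * y / (8 * κ))‖ ^ (2 * q) ≤
      C * D ^ (2 * q) * ((N : ℝ) * H) ^ ε * ((N : ℝ) + (H : ℝ) ^ 2) * (H : ℝ) ^ q *
        (min 1 (N / (H * y))) ^ (4 * q) := by
    intro a _
    exact hh N H y σ D (fun h => γ (σ * h) a) φ hN hH hy (by exact_mod_cast hσ)
      (fun h => hγ _ _) hφ hs hD
  refine (Finset.sum_le_sum h4).trans (le_of_eq ?_)
  rw [Finset.sum_const, card_range, nsmul_eq_mul]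
  push_cast
  ring

/-- weighted Hölder inequality -/
theorem D2 (p I : ℕ) (ρ x : ℕ → ℝ) (hρ : ∀ i, 0 < ρ i) (hx : ∀ i, 0 ≤ x i) :
    (∑ i ∈ range I, x i) ^ (p + 1) ≤
      (∑ i ∈ range I, ρ i) ^ p * ∑ i ∈ range I, (ρ i ^ p)⁻¹ * x i ^ (p + 1) := by
  rcases Nat.eq_zero_or_pos I with hI | hI
  · subst hI
    simp
  · set R := ∑ i ∈ range I, ρ i with hR
    have hR0 : 0 < R := Finset.sum_pos (fun i _ => hρ i) ⟨0, mem_range.mpr hI⟩
    have h1 := Real.pow_arith_mean_le_arith_mean_pow (range I) (fun i => ρ i / R)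
      (fun i => x i / ρ i) (fun i _ => (div_pos (hρ i) hR0).le)
      (by rw [← Finset.sum_div, ← hR, div_self hR0.ne'])
      (fun i _ => div_nonneg (hx i) (hρ i).le) (p + 1)
    have h2 : ∑ i ∈ range I, ρ i / R * (x i / ρ i) = (∑ i ∈ range I, x i) / R := by
      rw [Finset.sum_div]
      refine Finset.sum_congr rfl fun i _ => ?_
      have := (hρ i).ne'
      field_simp
    rw [h2, div_pow, div_le_iff₀ (by positivity)] at h1
    refine h1.trans (le_of_eq ?_)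
    rw [Finset.sum_mul, Finset.mul_sum]
    refine Finset.sum_congr rfl fun i _ => ?_
    have := (hρ i).ne'
    rw [div_pow]
    field_simp
    ring

theorem D3 (q : ℕ) (hq : 1 ≤ q) (N H y ε η : ℝ) (hN : 1 ≤ N) (hH : 1 ≤ H) (hy : 1 / 2 ≤ y)
    (hNy : N ≤ y ^ 2) (hε : 0 ≤ ε) (hη : 0 ≤ η) (hεη : ε + η ≤ 1) :
    (y ^ 2 / N) ^ q * ((N * H) ^ ε * (N + H ^ 2) * H ^ q * (min 1 (N / (H * y))) ^ (4 * q)) ≤
      4 * N ^ (2 * ε + η) * (N * y ^ q) * H ^ (-η) := by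
  have hy0 : 0 < y := by linarith
  have hN0 : 0 < N := by linarith
  have hH0 : 0 < H := by linarith
  set r : ℝ := H * y / N with hr
  have hr0 : 0 < r := by positivity
  have e0 : N / (H * y) = 1 / r := by rw [hr]; field_simp
  have e1 : (y ^ 2 / N) ^ q * H ^ q = y ^ q * r ^ q := by
    rw [← mul_pow, ← mul_pow]
    congr 1
    rw [hr]; field_simp
  have e2 : N + H ^ 2 ≤ N * (1 + r ^ 2) := by
    have : H ^ 2 = r ^ 2 * N ^ 2 / y ^ 2 := by rw [hr]; field_simp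
    have h2 : r ^ 2 * N ^ 2 / y ^ 2 ≤ r ^ 2 * N := by
      rw [div_le_iff₀ (by positivity)]
      nlinarith [mul_le_mul_of_nonneg_left hNy (show 0 ≤ r ^ 2 * N by positivity)]
    rw [this]
    nlinarith
  have e3 : H ^ (ε + η) ≤ 2 * N ^ (ε + η) * max 1 r := by
    have h1 : H ≤ 2 * N * max 1 r := by
      have h2 : H = r * N / y := by rw [hr]; field_simp
      have h3 : r * N / y ≤ 2 * N * r := by
        rw [div_le_iff₀ hy0]
        nlinarith [mul_pos hr0 hN0]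
      rw [h2]
      refine h3.trans ?_
      have := le_max_right (1 : ℝ) r
      nlinarith
    have h4 : (0 : ℝ) < max 1 r := lt_max_of_lt_left one_pos
    calc H ^ (ε + η) ≤ (2 * N * max 1 r) ^ (ε + η) :=
          Real.rpow_le_rpow hH0.le h1 (by positivity)
      _ = 2 ^ (ε + η) * N ^ (ε + η) * (max 1 r) ^ (ε + η) := by
          rw [Real.mul_rpow (by positivity) h4.le, Real.mul_rpow (by norm_num) hN0.le]
      _ ≤ 2 ^ (1 : ℝ) * N ^ (ε + η) * (max 1 r) ^ (1 : ℝ) := by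
          have h5 : (2 : ℝ) ^ (ε + η) ≤ 2 ^ (1 : ℝ) :=
            Real.rpow_le_rpow_of_exponent_le (by norm_num) hεη
          have h6 : (max 1 r) ^ (ε + η) ≤ (max 1 r) ^ (1 : ℝ) :=
            Real.rpow_le_rpow_of_exponent_le (le_max_left _ _) hεη
          have h7 : 0 < N ^ (ε + η) := Real.rpow_pos_of_pos hN0 _
          gcongr
      _ = _ := by rw [Real.rpow_one, Real.rpow_one]
  have e4 : r ^ q * (1 + r ^ 2) * (min 1 (1 / r)) ^ (4 * q) * max 1 r ≤ 2 := by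
    rcases le_total r 1 with h | h
    · have h1 : (1 : ℝ) ≤ 1 / r := by rw [le_div_iff₀ hr0]; linarith
      rw [min_eq_left h1, max_eq_left h, one_pow, mul_one, mul_one]
      have h2 : r ^ q ≤ 1 := pow_le_one₀ hr0.le h
      have h3 : r ^ 2 ≤ 1 := pow_le_one₀ hr0.le h
      have h4 : 0 ≤ r ^ q := by positivity
      nlinarith
    · have h1 : 1 / r ≤ 1 := by rw [div_le_iff₀ hr0]; linarith
      rw [min_eq_right h1, max_eq_right h, one_div, inv_pow]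
      have h2 : r ^ (q + 3) ≤ r ^ (4 * q) := pow_le_pow_right₀ h (by omega)
      have h3 : 1 + r ^ 2 ≤ 2 * r ^ 2 := by nlinarith
      have h4 : 0 < r ^ (4 * q) := by positivity
      calc r ^ q * (1 + r ^ 2) * (r ^ (4 * q))⁻¹ * r ≤ r ^ q * (2 * r ^ 2) * (r ^ (4 * q))⁻¹ * r := by
            gcongr
        _ = 2 * (r ^ (q + 3) * (r ^ (4 * q))⁻¹) := by rw [pow_add]; ring
        _ ≤ 2 * 1 := by
            have : r ^ (q + 3) * (r ^ (4 * q))⁻¹ ≤ 1 := by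
              rw [← div_eq_mul_inv, div_le_one h4]; exact h2
            linarith
        _ = 2 := by norm_num
  have e5 : (N * H) ^ ε = N ^ ε * H ^ (ε + η) * H ^ (-η) := by
    rw [Real.mul_rpow hN0.le hH0.le, mul_assoc, ← Real.rpow_add hH0]
    congr 2
    ring
  have e6 : N ^ (2 * ε + η) = N ^ ε * N ^ (ε + η) := by
    rw [← Real.rpow_add hN0]; congr 1; ring
  rw [e0, e5, e6]
  have hHη : 0 < H ^ (-η) := Real.rpow_pos_of_pos hH0 _
  have hNε : 0 < N ^ ε := Real.rpow_pos_of_pos hN0 _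
  have hNε2 : 0 < N ^ (ε + η) := Real.rpow_pos_of_pos hN0 _
  have hm0 : 0 ≤ min 1 (1 / r) := by positivity
  calc (y ^ 2 / N) ^ q * (N ^ ε * H ^ (ε + η) * H ^ (-η) * (N + H ^ 2) * H ^ q *
        (min 1 (1 / r)) ^ (4 * q)) =
      ((y ^ 2 / N) ^ q * H ^ q) * (N ^ ε * H ^ (-η)) * (H ^ (ε + η) * (N + H ^ 2) *
        (min 1 (1 / r)) ^ (4 * q)) := by ring
    _ ≤ (y ^ q * r ^ q) * (N ^ ε * H ^ (-η)) * ((2 * N ^ (ε + η) * max 1 r) *
        (N * (1 + r ^ 2)) * (min 1 (1 / r)) ^ (4 * q)) := by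
        rw [e1]
        gcongr
    _ = 2 * N ^ ε * H ^ (-η) * N ^ (ε + η) * N * y ^ q *
        (r ^ q * (1 + r ^ 2) * (min 1 (1 / r)) ^ (4 * q) * max 1 r) := by ring
    _ ≤ 2 * N ^ ε * H ^ (-η) * N ^ (ε + η) * N * y ^ q * 2 := by gcongr
    _ = _ := by ring

end

end Pool.Agent.H116R2.RZ5NM
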