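import Pool.Agent.H116R2.RZ5_NM_D

set_option autoImplicit false

/-!
Moments (exponent `2 q`) of smooth dyadic sums, part 5 : truncated dual sums.
-/

namespace Pool.Agent.H116R2.RZ5NM

open Finset Filter Topology MeasureTheory Pool.Agent.H306R2.RZ

noncomputable section

theorem sum_dyadic (f : ℕ → ℂ) (I : ℕ) :
    ∑ n ∈ Ico 1 (2 ^ I), f n = ∑ i ∈ range I, ∑ n ∈ Ico (2 ^ i) (2 * 2 ^ i), f n := by
  induction I with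
  | zero => simp
  | succ I ih =>
    rw [Finset.sum_range_succ, ← ih, pow_succ', Finset.sum_Ico_consecutive]
    · exact Nat.one_le_two_pow
    · have := Nat.one_le_two_pow (n := I); omega

theorem SUMI (q : ℕ) (hq : 1 ≤ q) (hL : LSq q) (ε : ℝ) (hε : 0 < ε) : ∃ C : ℝ, 0 < C ∧
    ∀ (N I : ℕ) (y D : ℝ) (γ : ℤ → ℕ → ℂ) (φ : ℝ → ℂ), 1 ≤ N → 1 / 2 ≤ y → (N : ℝ) ≤ y ^ 2 →
    (∀ h κ, ‖γ h κ‖ ≤ 1) → (∀ h κ, γ h (κ + 8) = γ h κ) →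
    ContDiff ℝ ((⊤ : ℕ∞) : WithTop ℕ∞) φ → (∀ u, φ u ≠ 0 → 1 / 2 ≤ u ∧ u ≤ 2) →
    (∀ j ≤ 2, ∀ u, ‖iteratedDeriv j φ u‖ ≤ D) →
    ∑ κ ∈ (osf (2 * N)).filter (fun κ => N ≤ κ),
        ‖((y / Real.sqrt κ : ℝ) : ℂ) * ∑ n ∈ Ico (1 : ℕ) (2 ^ I), (aa γ φ y κ (n : ℤ) + aa γ φ y κ (-(n : ℤ)))‖ ^ (2 * q) ≤
      C * D ^ (2 * q) * (N : ℝ) ^ ε * ((N : ℝ) * y ^ q) := by
  set ε₁ : ℝ := min ε 1 with hε₁
  have hε₁0 : 0 < ε₁ := lt_min hε one_pos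
  have hε₁1 : ε₁ ≤ 1 := min_le_right _ _
  have hε₁ε : ε₁ ≤ ε := min_le_left _ _
  have hq0 : (0 : ℝ) < q := by exact_mod_cast hq
  set δ : ℝ := ε₁ / (4 * q) with hδ
  have hδ0 : 0 < δ := by positivity
  obtain ⟨C, hC, hh⟩ := D1 q hq hL (ε₁ / 4) (by positivity)
  set t : ℝ := 2 ^ (-δ) with ht
  have ht0 : 0 < t := Real.rpow_pos_of_pos (by norm_num) _
  have ht1 : t < 1 := Real.rpow_lt_one_of_one_lt_of_neg (by norm_num) (by linarith)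
  set R : ℝ := (1 - t)⁻¹ with hR
  have hR0 : 0 < R := inv_pos.mpr (by linarith)
  obtain ⟨p, hp⟩ : ∃ p, 2 * q = p + 1 := ⟨2 * q - 1, by omega⟩
  refine ⟨R ^ p * 2 ^ p * 2 * C * 4 * R, by positivity,
    fun N I y D γ φ hN hy hNy hγ hγ8 hφ hs hD => ?_⟩
  have hN0 : (1 : ℝ) ≤ N := by exact_mod_cast hN
  have hy0 : 0 < y := by linarith
  have hD0 : 0 ≤ D := (norm_nonneg _).trans (hD 0 (by norm_num) 0)
  set P : ℤ → ℕ → ℕ → ℂ := fun σ i κ => ∑ n ∈ Ico ((2 : ℕ) ^ i) (2 * 2 ^ i), aa γ φ y κ (σ * ((n : ℕ) : ℤ))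
    with hP
  have hRs : ∑ i ∈ range I, t ^ i ≤ R := by
    rw [hR, ← tsum_geometric_of_lt_one ht0.le ht1]
    exact (summable_geometric_of_lt_one ht0.le ht1).sum_le_tsum _ (fun i _ => by positivity)
  have key : ∀ κ ∈ (osf (2 * N)).filter (fun κ => N ≤ κ),
      ‖((y / Real.sqrt κ : ℝ) : ℂ) * ∑ n ∈ Ico (1 : ℕ) (2 ^ I), (aa γ φ y κ (n : ℤ) + aa γ φ y κ (-(n : ℤ)))‖ ^ (2 * q) ≤
      (y ^ 2 / N) ^ q * (R ^ p * ∑ i ∈ range I, ((t ^ i) ^ p)⁻¹ *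
        (2 ^ p * (‖P 1 i κ‖ ^ (2 * q) + ‖P (-1) i κ‖ ^ (2 * q)))) := by
    intro κ hκ
    rw [mem_filter, osf, mem_filter, mem_Icc] at hκ
    obtain ⟨⟨⟨hκ1, hκ2⟩, -⟩, hκ3⟩ := hκ
    have hκN : (N : ℝ) ≤ κ := by exact_mod_cast hκ3
    have hκ0 : (0 : ℝ) < κ := by linarith
    rw [norm_mul, mul_pow, Complex.norm_real, Real.norm_of_nonneg (by positivity)]
    have h1 : (y / Real.sqrt κ) ^ (2 * q) ≤ (y ^ 2 / N) ^ q := by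
      rw [pow_mul, div_pow, Real.sq_sqrt hκ0.le]
      have : y ^ 2 / κ ≤ y ^ 2 / N := by gcongr
      exact pow_le_pow_left₀ (by positivity) this _
    have h2 : ‖∑ n ∈ Ico (1 : ℕ) (2 ^ I), (aa γ φ y κ (n : ℤ) + aa γ φ y κ (-(n : ℤ)))‖ ≤
        ∑ i ∈ range I, (‖P 1 i κ‖ + ‖P (-1) i κ‖) := by
      rw [sum_dyadic]
      refine (norm_sum_le _ _).trans (Finset.sum_le_sum fun i _ => ?_)
      rw [Finset.sum_add_distrib]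
      have e1 : ∑ n ∈ Ico ((2 : ℕ) ^ i) (2 * 2 ^ i), aa γ φ y κ ((n : ℕ) : ℤ) = P 1 i κ := by
        simp only [hP, one_mul]
      have e2 : ∑ n ∈ Ico ((2 : ℕ) ^ i) (2 * 2 ^ i), aa γ φ y κ (-((n : ℕ) : ℤ)) = P (-1) i κ := by
        simp only [hP, neg_mul, one_mul]
      rw [e1, e2]
      exact norm_add_le _ _
    have h3 : ‖∑ n ∈ Ico (1 : ℕ) (2 ^ I), (aa γ φ y κ (n : ℤ) + aa γ φ y κ (-(n : ℤ)))‖ ^ (2 * q) ≤
        R ^ p * ∑ i ∈ range I, ((t ^ i) ^ p)⁻¹ *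
        (2 ^ p * (‖P 1 i κ‖ ^ (2 * q) + ‖P (-1) i κ‖ ^ (2 * q))) := by
      refine (pow_le_pow_left₀ (norm_nonneg _) h2 _).trans ?_
      rw [hp]
      refine (D2 p I (fun i => t ^ i) (fun i => ‖P 1 i κ‖ + ‖P (-1) i κ‖) (fun i => by positivity)
        (fun i => by positivity)).trans ?_
      refine mul_le_mul (pow_le_pow_left₀ (by positivity) hRs _) ?_ (by positivity) (by positivity)
      refine Finset.sum_le_sum fun i _ => ?_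
      refine mul_le_mul_of_nonneg_left ?_ (by positivity)
      exact add_pow_le (norm_nonneg _) (norm_nonneg _) (p + 1)
    exact mul_le_mul h1 h3 (by positivity) (by positivity)
  refine (Finset.sum_le_sum key).trans ?_
  rw [← Finset.mul_sum, ← Finset.mul_sum, Finset.sum_comm]
  have hb : ∀ i ∈ range I, ∑ κ ∈ (osf (2 * N)).filter (fun κ => N ≤ κ), ((t ^ i) ^ p)⁻¹ *
        (2 ^ p * (‖P 1 i κ‖ ^ (2 * q) + ‖P (-1) i κ‖ ^ (2 * q))) ≤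
      ((t ^ i) ^ p)⁻¹ * (2 ^ p * (2 * (C * D ^ (2 * q) * ((N : ℝ) * (2 ^ i : ℕ)) ^ (ε₁ / 4) *
        ((N : ℝ) + ((2 ^ i : ℕ) : ℝ) ^ 2) * ((2 ^ i : ℕ) : ℝ) ^ q *
        (min 1 (N / (((2 ^ i : ℕ) : ℝ) * y))) ^ (4 * q)))) := by
    intro i _
    rw [← Finset.mul_sum, ← Finset.mul_sum, Finset.sum_add_distrib]
    have h1 := hh N (2 ^ i) y D 1 γ φ hN Nat.one_le_two_pow hy0 (by norm_num) hγ hγ8 hφ hs hD
    have h2 := hh N (2 ^ i) y D (-1) γ φ hN Nat.one_le_two_pow hy0 (by norm_num) hγ hγ8 hφ hs hD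
    refine mul_le_mul_of_nonneg_left (mul_le_mul_of_nonneg_left ?_ (by positivity)) (by positivity)
    have h3 := add_le_add h1 h2
    refine h3.trans (le_of_eq ?_)
    ring
  have hb2 : ∀ i ∈ range I, (y ^ 2 / N) ^ q * (((t ^ i) ^ p)⁻¹ * (2 ^ p * (2 * (C * D ^ (2 * q) *
      ((N : ℝ) * (2 ^ i : ℕ)) ^ (ε₁ / 4) *
        ((N : ℝ) + ((2 ^ i : ℕ) : ℝ) ^ 2) * ((2 ^ i : ℕ) : ℝ) ^ q *
        (min 1 (N / (((2 ^ i : ℕ) : ℝ) * y))) ^ (4 * q))))) ≤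
      (2 ^ p * 2 * C * 4) * D ^ (2 * q) * (N : ℝ) ^ ε * ((N : ℝ) * y ^ q) * t ^ i := by
    intro i _
    have h1 := D3 q hq N ((2 ^ i : ℕ) : ℝ) y (ε₁ / 4) (ε₁ / 2) hN0
      (by exact_mod_cast Nat.one_le_two_pow) hy hNy (by positivity) (by positivity) (by linarith)
    have h2 : (((2 ^ i : ℕ) : ℝ)) ^ (-(ε₁ / 2)) = (t ^ i) ^ (p + 1) := by
      have e1 : (((2 ^ i : ℕ) : ℝ)) = (2 : ℝ) ^ (i : ℝ) := by
        rw [Real.rpow_natCast]; push_cast; rfl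
      rw [e1, ← Real.rpow_mul (by norm_num), ← hp, ht, ← Real.rpow_natCast, ← Real.rpow_natCast,
        ← Real.rpow_mul (by positivity), ← Real.rpow_mul (by positivity)]
      congr 1
      rw [hδ]
      push_cast
      field_simp
      ring
    rw [h2] at h1
    have h3 : (N : ℝ) ^ (2 * (ε₁ / 4) + ε₁ / 2) ≤ (N : ℝ) ^ ε :=
      Real.rpow_le_rpow_of_exponent_le hN0 (by linarith)
    have h4 : ((t ^ i) ^ p)⁻¹ * (t ^ i) ^ (p + 1) = t ^ i := by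
      rw [pow_succ]
      have : (t ^ i) ^ p ≠ 0 := by positivity
      field_simp
    calc (y ^ 2 / N) ^ q * (((t ^ i) ^ p)⁻¹ * (2 ^ p * (2 * (C * D ^ (2 * q) *
      ((N : ℝ) * (2 ^ i : ℕ)) ^ (ε₁ / 4) *
        ((N : ℝ) + ((2 ^ i : ℕ) : ℝ) ^ 2) * ((2 ^ i : ℕ) : ℝ) ^ q *
        (min 1 (N / (((2 ^ i : ℕ) : ℝ) * y))) ^ (4 * q))))) =
        ((t ^ i) ^ p)⁻¹ * (2 ^ p * (2 * (C * D ^ (2 * q)))) * ((y ^ 2 / N) ^ q *
          (((N : ℝ) * (2 ^ i : ℕ)) ^ (ε₁ / 4) *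
        ((N : ℝ) + ((2 ^ i : ℕ) : ℝ) ^ 2) * ((2 ^ i : ℕ) : ℝ) ^ q *
        (min 1 (N / (((2 ^ i : ℕ) : ℝ) * y))) ^ (4 * q))) := by ring
      _ ≤ ((t ^ i) ^ p)⁻¹ * (2 ^ p * (2 * (C * D ^ (2 * q)))) *
          (4 * (N : ℝ) ^ ε * (N * y ^ q) * (t ^ i) ^ (p + 1)) := by
          refine mul_le_mul_of_nonneg_left (h1.trans ?_) (by positivity)
          gcongr
      _ = (2 ^ p * 2 * C * 4) * D ^ (2 * q) * (N : ℝ) ^ ε * ((N : ℝ) * y ^ q) *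
          (((t ^ i) ^ p)⁻¹ * (t ^ i) ^ (p + 1)) := by ring
      _ = _ := by rw [h4]
  calc _ ≤ (y ^ 2 / N) ^ q * (R ^ p * ∑ i ∈ range I, ((t ^ i) ^ p)⁻¹ * (2 ^ p * (2 *
        (C * D ^ (2 * q) * ((N : ℝ) * (2 ^ i : ℕ)) ^ (ε₁ / 4) *
        ((N : ℝ) + ((2 ^ i : ℕ) : ℝ) ^ 2) * ((2 ^ i : ℕ) : ℝ) ^ q *
        (min 1 (N / (((2 ^ i : ℕ) : ℝ) * y))) ^ (4 * q))))) := by
        refine mul_le_mul_of_nonneg_left (mul_le_mul_of_nonneg_left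
          (Finset.sum_le_sum hb) (by positivity)) (by positivity)
    _ = R ^ p * ∑ i ∈ range I, (y ^ 2 / N) ^ q * (((t ^ i) ^ p)⁻¹ * (2 ^ p * (2 *
        (C * D ^ (2 * q) * ((N : ℝ) * (2 ^ i : ℕ)) ^ (ε₁ / 4) *
        ((N : ℝ) + ((2 ^ i : ℕ) : ℝ) ^ 2) * ((2 ^ i : ℕ) : ℝ) ^ q *
        (min 1 (N / (((2 ^ i : ℕ) : ℝ) * y))) ^ (4 * q))))) := by
        rw [Finset.mul_sum, Finset.mul_sum, Finset.mul_sum]
        refine Finset.sum_congr rfl fun i _ => ?_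
        ring
    _ ≤ R ^ p * ∑ i ∈ range I,
        (2 ^ p * 2 * C * 4) * D ^ (2 * q) * (N : ℝ) ^ ε * ((N : ℝ) * y ^ q) * t ^ i :=
        mul_le_mul_of_nonneg_left (Finset.sum_le_sum hb2) (by positivity)
    _ = R ^ p * ((2 ^ p * 2 * C * 4) * D ^ (2 * q) * (N : ℝ) ^ ε * ((N : ℝ) * y ^ q)) *
        ∑ i ∈ range I, t ^ i := by rw [← Finset.mul_sum]; ring
    _ ≤ R ^ p * ((2 ^ p * 2 * C * 4) * D ^ (2 * q) * (N : ℝ) ^ ε * ((N : ℝ) * y ^ q)) * R :=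
        mul_le_mul_of_nonneg_left hRs (by positivity)
    _ = _ := by ring

end

end Pool.Agent.H116R2.RZ5NM
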