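import Pool.Agent.H116R2.RZ5_NM_E

set_option autoImplicit false

/-!
Moments (exponent `2 q`) of smooth dyadic sums, part 6 : the theorem.
-/

namespace Pool.Agent.H116R2.RZ5NM

open Finset Filter Topology MeasureTheory Pool.Agent.H306R2.RZ

noncomputable section

/-- the statement of Poisson summation -/
def POS : Prop := ∀ (ψ : ℕ → ℂ) (_ : ∀ m, ‖ψ m‖ ≤ 1) (_ : ∀ m, ψ (m + 8) = ψ m),
    ∃ γ : ℤ → ℕ → ℂ, (∀ h κ, ‖γ h κ‖ ≤ 1) ∧ (∀ h κ, γ (h + 8) κ = γ h κ) ∧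
      (∀ h κ, γ h (κ + 8) = γ h κ) ∧
    ∀ (κ : ℕ), Odd κ → Squarefree κ → 1 < κ → ∀ (φ : ℝ → ℂ), ContDiff ℝ ((⊤ : ℕ∞) : WithTop ℕ∞) φ →
      HasCompactSupport φ → tsupport φ ⊆ Set.Ioi 0 → ∀ y : ℝ, 0 < y →
      (∑' m : ℕ, if Odd m then ψ m * (js m κ : ℂ) * φ (m / y) else 0) =
        ((y / Real.sqrt κ : ℝ) : ℂ) * ∑' h : ℤ, (js h κ : ℂ) * γ h κ *
          ∫ u : ℝ, φ u * Complex.exp (-(2 * Real.pi * Complex.I * (h * y / (8 * κ) : ℝ) * u))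

theorem aa_zero (γ : ℤ → ℕ → ℂ) (φ : ℝ → ℂ) (y : ℝ) (κ : ℕ) (hκ : 1 < κ) : aa γ φ y κ 0 = 0 := by
  have : js 0 κ = 0 := by
    unfold js
    rw [jacobiSym.zero_left hκ]
    simp
  rw [aa, this]
  simp

theorem aa_summable (γ : ℤ → ℕ → ℂ) (φ : ℝ → ℂ) (y : ℝ) (κ : ℕ) (hκ : 1 < κ) (hy : 0 < y)
    (hγ : ∀ h κ, ‖γ h κ‖ ≤ 1)
    (hφ : ContDiff ℝ ((⊤ : ℕ∞) : WithTop ℕ∞) φ) (hs : ∀ u, φ u ≠ 0 → 1 / 2 ≤ u ∧ u ≤ 2) :
    Summable (aa γ φ y κ) := by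
  set M : ℝ := ∫ u, ‖iteratedDeriv 2 φ u‖ with hM
  have hκ0 : (0 : ℝ) < κ := by exact_mod_cast (by omega : 0 < κ)
  refine Summable.of_norm_bounded (g := fun h : ℤ => M * (4 * κ / (Real.pi * y)) ^ 2 *
    (1 / (h : ℝ) ^ 2)) ((Real.summable_one_div_int_pow.mpr (by norm_num)).mul_left _) fun h => ?_
  rcases eq_or_ne h 0 with h0 | h0
  · subst h0
    rw [aa_zero γ φ y κ hκ]
    simp
  · have hh : (h : ℝ) ≠ 0 := by exact_mod_cast h0
    rw [aa, norm_mul, norm_mul, Complex.norm_real, Real.norm_eq_abs]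
    have h1 : |js h κ| * ‖γ h κ‖ ≤ 1 := mul_le_one₀ (js_abs_le _ _) (norm_nonneg _) (hγ _ _)
    refine (mul_le_of_le_one_left (norm_nonneg _) h1).trans ?_
    have h2 := FT_ibp φ hφ hs 2 (h * y / (8 * κ))
    have h3 : ‖FT (iteratedDeriv 2 φ) (h * y / (8 * κ))‖ ≤ M := by
      rw [hM, FT]
      refine (norm_integral_le_integral_norm _).trans (le_of_eq ?_)
      refine integral_congr_ae (ae_of_all _ fun u => ?_)
      dsimp only
      have e1 : (-(2 * Real.pi * Complex.I * ((h * y / (8 * κ) : ℝ) : ℂ) * (u : ℂ))) =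
          ((-(2 * Real.pi * (h * y / (8 * κ)) * u) : ℝ) : ℂ) * Complex.I := by
        push_cast
        ring
      rw [norm_mul, e1, Complex.norm_exp_ofReal_mul_I, mul_one]
    rw [h2, norm_mul, norm_pow] at h3
    have h4 : ‖(2 * Real.pi * Complex.I * ((h * y / (8 * κ) : ℝ) : ℂ))‖ =
        |(h : ℝ)| * (Real.pi * y / (4 * κ)) := by
      rw [norm_mul, norm_mul, norm_mul, Complex.norm_real, Complex.norm_real, Complex.norm_I,
        Real.norm_of_nonneg Real.pi_pos.le, Real.norm_eq_abs, abs_div, abs_mul, abs_of_pos hy,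
        abs_of_pos (by positivity : (0 : ℝ) < 8 * κ)]
      simp only [Complex.norm_ofNat]
      field_simp
      ring
    rw [h4, mul_pow, sq_abs] at h3
    have h5 : (0 : ℝ) < (h : ℝ) ^ 2 * (Real.pi * y / (4 * κ)) ^ 2 := by
      have := Real.pi_pos
      positivity
    rw [← le_div_iff₀' h5] at h3
    refine h3.trans (le_of_eq ?_)
    have := Real.pi_pos.ne'
    field_simp

theorem BLKN (q : ℕ) (hq : 1 ≤ q) (hL : LSq q) (hPO : POS) (ε : ℝ) (hε : 0 < ε) : ∃ C : ℝ, 0 < C ∧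
    ∀ (N : ℕ) (y D : ℝ) (ψ : ℕ → ℂ) (φ : ℝ → ℂ), 1 ≤ N → 1 / 2 ≤ y → (N : ℝ) ≤ y ^ 2 →
    (∀ m, ‖ψ m‖ ≤ 1) → (∀ m, ψ (m + 8) = ψ m) →
    ContDiff ℝ ((⊤ : ℕ∞) : WithTop ℕ∞) φ → (∀ u, φ u ≠ 0 → 1 / 2 ≤ u ∧ u ≤ 2) →
    (∀ j ≤ 2, ∀ u, ‖iteratedDeriv j φ u‖ ≤ D) →
    ∑ κ ∈ ((osf (2 * N)).filter (fun κ => N ≤ κ)).filter (fun κ => 1 < κ),
        ‖∑' m : ℕ, if Odd m then ψ m * (js m κ : ℂ) * φ (m / y) else 0‖ ^ (2 * q) ≤
      C * D ^ (2 * q) * (N : ℝ) ^ ε * ((N : ℝ) * y ^ q) := by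
  obtain ⟨C, hC, hh⟩ := SUMI q hq hL ε hε
  refine ⟨C, hC, fun N y D ψ φ hN hy hNy hψ hψ8 hφ hs hD => ?_⟩
  obtain ⟨γ, hγ, -, hγ8, hP⟩ := hPO ψ hψ hψ8
  have hy0 : 0 < y := by linarith
  have hsupp : Function.support φ ⊆ Set.Icc (1 / 2 : ℝ) 2 := fun u hu => hs u hu
  have hcs : HasCompactSupport φ := HasCompactSupport.intro isCompact_Icc fun u hu => by
    by_contra h
    exact hu (hs u h)
  have hts : tsupport φ ⊆ Set.Ioi 0 := by
    refine (closure_minimal hsupp isClosed_Icc).trans fun u hu => ?_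
    have := hu.1
    simp only [Set.mem_Ioi]
    linarith
  have hlim : Tendsto (fun I : ℕ => ∑ κ ∈ ((osf (2 * N)).filter (fun κ => N ≤ κ)).filter
      (fun κ => 1 < κ), ‖((y / Real.sqrt κ : ℝ) : ℂ) * ∑ n ∈ Ico (1 : ℕ) (2 ^ I),
        (aa γ φ y κ (n : ℤ) + aa γ φ y κ (-(n : ℤ)))‖ ^ (2 * q)) atTop
      (𝓝 (∑ κ ∈ ((osf (2 * N)).filter (fun κ => N ≤ κ)).filter (fun κ => 1 < κ),
        ‖∑' m : ℕ, if Odd m then ψ m * (js m κ : ℂ) * φ (m / y) else 0‖ ^ (2 * q))) := by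
    refine tendsto_finsetSum _ fun κ hκ => ?_
    rw [mem_filter, mem_filter, osf, mem_filter, mem_Icc] at hκ
    obtain ⟨⟨⟨-, hκo, hκsq⟩, -⟩, hκ1⟩ := hκ
    rw [hP κ hκo hκsq hκ1 φ hφ hcs hts y hy0]
    refine (Tendsto.const_mul _ ?_).norm.pow _
    have h1 : HasSum (aa γ φ y κ) (∑' h : ℤ, aa γ φ y κ h) :=
      (aa_summable γ φ y κ hκ1 hy0 hγ hφ hs).hasSum
    have h2 := h1.nat_add_neg
    rw [aa_zero γ φ y κ hκ1, add_zero] at h2
    have h3 := h2.tendsto_sum_nat.comp (tendsto_pow_atTop_atTop_of_one_lt (one_lt_two))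
    refine h3.congr fun I => ?_
    simp only [Function.comp]
    rw [Finset.range_eq_Ico, Finset.sum_eq_sum_Ico_succ_bot (by positivity)]
    simp [aa_zero γ φ y κ hκ1]
  refine le_of_tendsto hlim (Eventually.of_forall fun I => ?_)
  refine (Finset.sum_le_sum_of_subset_of_nonneg (Finset.filter_subset _ _)
    (fun κ _ _ => by positivity)).trans ?_
  exact hh N I y D γ φ hN hy hNy hγ hγ8 hφ hs hD

theorem NMq (q : ℕ) (hq : 1 ≤ q) (hL : LSq q) (hPO : POS) (ε : ℝ) (hε : 0 < ε) :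
    ∃ (C : ℝ) (A : ℕ), 0 < C ∧ ∀ (K : ℕ) (y D : ℝ) (ψ : ℕ → ℂ)
    (φ : ℝ → ℂ), 1 ≤ K → 1 / 2 ≤ y → (∀ m, ‖ψ m‖ ≤ 1) → (∀ m, ψ (m + 8) = ψ m) →
    ContDiff ℝ ((⊤ : ℕ∞) : WithTop ℕ∞) φ → (∀ u, φ u ≠ 0 → 1 / 2 ≤ u ∧ u ≤ 2) →
    (∀ j ≤ A, ∀ u, ‖iteratedDeriv j φ u‖ ≤ D) →
    ∑ κ ∈ (osf K).filter (fun κ => 1 < κ),
        ‖∑' m : ℕ, if Odd m then ψ m * (js m κ : ℂ) * φ (m / y) else 0‖ ^ (2 * q) ≤
      C * D ^ (2 * q) * ((K : ℝ) * y) ^ ε * (K * y ^ q) := by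
  obtain ⟨C1, hC1, h1⟩ := LSq_hom q hq hL ε hε
  obtain ⟨C2, hC2, h2⟩ := BLKN q hq hL hPO ε hε
  refine ⟨C1 * 2 ^ ε * 5 * 2 ^ q + C2 * 2 ^ ε * 2, 2, by positivity,
    fun K y D ψ φ hK hy hψ hψ8 hφ hs hD => ?_⟩
  have hy0 : 0 < y := by linarith
  have hK0 : (1 : ℝ) ≤ K := by exact_mod_cast hK
  have hD0 : 0 ≤ D := (norm_nonneg _).trans (hD 0 (by norm_num) 0)
  have hKy : 0 < ((K : ℝ) * y) ^ ε := Real.rpow_pos_of_pos (by positivity) _
  have h2ε : (0 : ℝ) < 2 ^ ε := Real.rpow_pos_of_pos (by norm_num) _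
  have hsplit : (C1 * 2 ^ ε * 5 * 2 ^ q + C2 * 2 ^ ε * 2) * D ^ (2 * q) * ((K : ℝ) * y) ^ ε *
      (K * y ^ q) = (C1 * 2 ^ ε * 5 * 2 ^ q) * D ^ (2 * q) * ((K : ℝ) * y) ^ ε * (K * y ^ q) +
      (C2 * 2 ^ ε * 2) * D ^ (2 * q) * ((K : ℝ) * y) ^ ε * (K * y ^ q) := by ring
  rw [hsplit]
  rcases le_total (y ^ 2) K with hc | hc
  · have hpos : 0 ≤ (C2 * 2 ^ ε * 2) * D ^ (2 * q) * ((K : ℝ) * y) ^ ε * (K * y ^ q) := by
      positivity
    refine le_trans ?_ (le_add_of_nonneg_right hpos)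
    set H : ℕ := ⌊2 * y⌋₊ with hH
    have hH1 : 1 ≤ H := Nat.le_floor (by push_cast; linarith)
    have hHy : (H : ℝ) ≤ 2 * y := Nat.floor_le (by linarith)
    have hH0 : (1 : ℝ) ≤ H := by exact_mod_cast hH1
    set c : ℕ → ℂ := fun m => if Odd m then ψ m * φ (m / y) else 0 with hcdef
    have hc1 : ∀ m, ‖c m‖ ≤ D := by
      intro m
      simp only [hcdef]
      split_ifs
      · rw [norm_mul]
        have := hD 0 (by norm_num) (m / y)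
        rw [iteratedDeriv_zero] at this
        calc ‖ψ m‖ * ‖φ (m / y)‖ ≤ 1 * D :=
              mul_le_mul (hψ m) this (norm_nonneg _) zero_le_one
          _ = D := one_mul _
      · simpa using hD0
    have h3 := h1 K H c D hK hH1 hc1
    have h4 : ∀ κ, (∑' m : ℕ, if Odd m then ψ m * (js m κ : ℂ) * φ (m / y) else 0) =
        ∑ h ∈ Icc 1 H, c h * (js h κ : ℂ) := by
      intro κ
      rw [tsum_eq_sum (s := Icc 1 H)]
      · refine Finset.sum_congr rfl fun m _ => ?_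
        simp only [hcdef]
        split_ifs
        · ring
        · simp
      · intro m hm
        rw [mem_Icc, not_and_or] at hm
        rcases hm with hm | hm
        · have : m = 0 := by omega
          subst this
          simp
        · have hm2 : 2 * y < m := by
            have h5 : H + 1 ≤ m := by omega
            have h6 : 2 * y < (H : ℝ) + 1 := Nat.lt_floor_add_one _
            have h7 : ((H : ℝ) + 1) ≤ m := by exact_mod_cast h5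
            linarith
          have : φ (m / y) = 0 := by
            by_contra h
            have := (hs _ h).2
            rw [div_le_iff₀ hy0] at this
            linarith
          rw [this]
          simp
    simp only [h4]
    refine (Finset.sum_le_sum_of_subset_of_nonneg (Finset.filter_subset _ _)
      (fun κ _ _ => by positivity)).trans (h3.trans ?_)
    have e1 : ((K : ℝ) * H) ^ ε ≤ 2 ^ ε * ((K : ℝ) * y) ^ ε := by
      rw [← Real.mul_rpow (by norm_num) (by positivity)]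
      exact Real.rpow_le_rpow (by positivity) (by nlinarith) hε.le
    have e2 : (K : ℝ) + (H : ℝ) ^ 2 ≤ 5 * K := by
      have : (H : ℝ) ^ 2 ≤ (2 * y) ^ 2 := pow_le_pow_left₀ (by positivity) hHy _
      nlinarith
    have e3 : (H : ℝ) ^ q ≤ 2 ^ q * y ^ q := by
      rw [← mul_pow]; exact pow_le_pow_left₀ (by positivity) hHy _
    calc C1 * D ^ (2 * q) * ((K : ℝ) * H) ^ ε * ((K : ℝ) + (H : ℝ) ^ 2) * (H : ℝ) ^ q ≤
        C1 * D ^ (2 * q) * (2 ^ ε * ((K : ℝ) * y) ^ ε) * (5 * K) * (2 ^ q * y ^ q) := by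
          gcongr
      _ = _ := by ring
  · have hpos : 0 ≤ (C1 * 2 ^ ε * 5 * 2 ^ q) * D ^ (2 * q) * ((K : ℝ) * y) ^ ε * (K * y ^ q) := by
      positivity
    refine le_trans ?_ (le_add_of_nonneg_left hpos)
    set S : ℕ → ℝ := fun κ =>
      ‖∑' m : ℕ, if Odd m then ψ m * (js m κ : ℂ) * φ (m / y) else 0‖ ^ (2 * q) with hS
    have hS0 : ∀ κ, 0 ≤ S κ := fun κ => by simp only [hS]; positivity
    have hmaps : ∀ κ ∈ (osf K).filter (fun κ => 1 < κ), Nat.log 2 κ ∈ range (Nat.log 2 K + 1) := by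
      intro κ hκ
      rw [mem_filter, osf, mem_filter, mem_Icc] at hκ
      rw [mem_range, Nat.lt_succ_iff]
      exact Nat.log_mono_right hκ.1.1.2
    change ∑ κ ∈ (osf K).filter (fun κ => 1 < κ), S κ ≤ _
    rw [← Finset.sum_fiberwise_of_maps_to hmaps]
    have hb : ∀ j ∈ range (Nat.log 2 K + 1),
        ∑ κ ∈ ((osf K).filter (fun κ => 1 < κ)).filter (fun κ => Nat.log 2 κ = j), S κ ≤
        C2 * D ^ (2 * q) * (K : ℝ) ^ ε * y ^ q * 2 ^ j := by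
      intro j hj
      rw [mem_range, Nat.lt_succ_iff] at hj
      have hjK : 2 ^ j ≤ K := Nat.pow_le_of_le_log (by omega) hj
      have hjK' : ((2 ^ j : ℕ) : ℝ) ≤ K := by exact_mod_cast hjK
      have h3 := h2 (2 ^ j) y D ψ φ Nat.one_le_two_pow hy (hjK'.trans hc) hψ hψ8 hφ hs hD
      have hsub : ((osf K).filter (fun κ => 1 < κ)).filter (fun κ => Nat.log 2 κ = j) ⊆
          ((osf (2 * 2 ^ j)).filter (fun κ => 2 ^ j ≤ κ)).filter (fun κ => 1 < κ) := by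
        intro κ hκ
        simp only [mem_filter, osf, mem_Icc] at hκ ⊢
        obtain ⟨⟨⟨⟨h5, h6⟩, h7⟩, h8⟩, h9⟩ := hκ
        have h10 : 2 ^ j ≤ κ := by rw [← h9]; exact Nat.pow_log_le_self 2 (by omega)
        have h11 : κ < 2 ^ (j + 1) := by rw [← h9]; exact Nat.lt_pow_succ_log_self (by norm_num) κ
        rw [pow_succ'] at h11
        exact ⟨⟨⟨⟨h5, h11.le⟩, h7⟩, h10⟩, h8⟩
      refine (Finset.sum_le_sum_of_subset_of_nonneg hsub (fun κ _ _ => hS0 κ)).trans (h3.trans ?_)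
      have e1 : ((2 ^ j : ℕ) : ℝ) ^ ε ≤ (K : ℝ) ^ ε :=
        Real.rpow_le_rpow (by positivity) hjK' hε.le
      calc C2 * D ^ (2 * q) * ((2 ^ j : ℕ) : ℝ) ^ ε * (((2 ^ j : ℕ) : ℝ) * y ^ q) ≤
          C2 * D ^ (2 * q) * (K : ℝ) ^ ε * (((2 ^ j : ℕ) : ℝ) * y ^ q) := by gcongr
        _ = _ := by push_cast; ring
    refine (Finset.sum_le_sum hb).trans ?_
    rw [← Finset.mul_sum]
    have e2 : ∑ j ∈ range (Nat.log 2 K + 1), (2 : ℝ) ^ j ≤ 2 * K := by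
      rw [geom_sum_eq (by norm_num)]
      have h5 : 2 ^ Nat.log 2 K ≤ K := Nat.pow_log_le_self 2 (by omega)
      have h6 : (2 : ℝ) ^ Nat.log 2 K ≤ K := by exact_mod_cast h5
      rw [pow_succ]
      linarith
    have e3 : (K : ℝ) ^ ε ≤ 2 ^ ε * ((K : ℝ) * y) ^ ε := by
      rw [← Real.mul_rpow (by norm_num) (by positivity)]
      exact Real.rpow_le_rpow (by positivity) (by nlinarith) hε.le
    calc C2 * D ^ (2 * q) * (K : ℝ) ^ ε * y ^ q * ∑ j ∈ range (Nat.log 2 K + 1), (2 : ℝ) ^ j ≤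
        C2 * D ^ (2 * q) * (2 ^ ε * ((K : ℝ) * y) ^ ε) * y ^ q * (2 * K) := by gcongr
      _ = _ := by ring

end

end Pool.Agent.H116R2.RZ5NM
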